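import Pool.Agent.Helper93.DR.Defs

/-!
# Approximation of square classes of decomposition fields by totally positive elements
-/

open scoped NumberField Pointwise
open IsDedekindDomain

namespace Pool.Agent.Helper2.LR

section Trace

variable {F L : Type*} [Field F] [NumberField F] [Field L] [NumberField L] [Algebra F L]
  [IsGalois F L]

theorem smul_ideal_pow {G R : Type*} [Group G] [CommRing R] [MulSemiringAction G R] (g : G)
    (I : Ideal R) (n : ℕ) : g • (I ^ n) = (g • I) ^ n := by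
  rw [Ideal.pointwise_smul_def, Ideal.pointwise_smul_def, Ideal.map_pow]

theorem smul_ideal_prime {G R : Type*} [Group G] [CommRing R] [MulSemiringAction G R] (g : G)
    (I : Ideal R) [hI : I.IsPrime] : (g • I).IsPrime := by
  rw [Ideal.pointwise_smul_eq_comap]
  exact Ideal.comap_isPrime _ _

theorem smul_ideal_ne_bot {G R : Type*} [Group G] [CommRing R] [MulSemiringAction G R] (g : G)
    {I : Ideal R} (hI : I ≠ ⊥) : g • I ≠ ⊥ := by
  obtain ⟨x, hx, hx0⟩ := Submodule.exists_mem_ne_zero_of_ne_bot hI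
  intro h
  have h1 : g • x ∈ g • I := Ideal.smul_mem_pointwise_smul g x I hx
  rw [h, Ideal.mem_bot] at h1
  exact hx0 (by simpa using congrArg (fun y => g⁻¹ • y) h1)

/-- An element fixed by the decomposition group is, up to the order of that group, congruent to
elements of the base field. -/
theorem exists_trace_approx (P : Ideal (𝓞 L)) [P.IsMaximal] (b : 𝓞 L)
    (hb : ∀ d : L ≃ₐ[F] L, d • P = P → d • b = b) (n : ℕ) :
    ∃ a : 𝓞 F, algebraMap (𝓞 F) (𝓞 L) a -
      (Nat.card (MulAction.stabilizer (L ≃ₐ[F] L) P) : 𝓞 L) * b ∈ P ^ n := by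
  classical
  have hP0 : P ≠ ⊥ := Ring.ne_bot_of_isMaximal_of_not_isField inferInstance
    (NumberField.RingOfIntegers.not_isField L)
  let s : Finset (Ideal (𝓞 L)) := Finset.univ.image (fun g : L ≃ₐ[F] L => g • P)
  obtain ⟨b', hb'⟩ := exists_forall_sub_mem_ideal (R := 𝓞 L) (s := s) (fun I => I) (fun _ => n)
    (by
      intro I hI
      obtain ⟨g, -, rfl⟩ := Finset.mem_image.1 hI
      have : P.IsPrime := Ideal.IsMaximal.isPrime inferInstance
      exact Ideal.prime_of_isPrime (smul_ideal_ne_bot g hP0) (smul_ideal_prime g P))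
    (fun I _ J _ h => h) (fun I => if I.1 = P then b else 0)
  have h1 : b' - b ∈ P ^ n := by
    have := hb' P (Finset.mem_image.2 ⟨1, Finset.mem_univ _, one_smul _ _⟩)
    simpa using this
  have h2 : ∀ g : L ≃ₐ[F] L, g • P ≠ P → b' ∈ (g • P) ^ n := by
    intro g hg
    have := hb' (g • P) (Finset.mem_image.2 ⟨g, Finset.mem_univ _, rfl⟩)
    simpa [hg] using this
  obtain ⟨a, ha⟩ := (Algebra.IsInvariant.isInvariant (A := 𝓞 F) (B := 𝓞 L) (G := L ≃ₐ[F] L))
    (∑ g : L ≃ₐ[F] L, g • b') (by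
      intro h
      rw [Finset.smul_sum]
      simp_rw [smul_smul]
      exact Fintype.sum_equiv (Equiv.mulLeft h) _ _ (fun g => rfl))
  refine ⟨a, ?_⟩
  have h3 : (Nat.card (MulAction.stabilizer (L ≃ₐ[F] L) P) : 𝓞 L) * b =
      ∑ g : L ≃ₐ[F] L, if g • P = P then b else 0 := by
    rw [← Finset.sum_filter, Finset.sum_const, nsmul_eq_mul]
    congr 2
    rw [Nat.card_eq_fintype_card]
    exact Fintype.card_subtype (fun g : L ≃ₐ[F] L => g • P = P)
  rw [ha, h3, ← Finset.sum_sub_distrib]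
  refine Submodule.sum_mem _ (fun g _ => ?_)
  by_cases hg : g • P = P
  · rw [if_pos hg]
    have h4 : g • b' - b = g • (b' - b) := by rw [smul_sub, hb g hg]
    rw [h4]
    have h5 := Ideal.smul_mem_pointwise_smul g _ _ h1
    rwa [smul_ideal_pow, hg] at h5
  · rw [if_neg hg, sub_zero]
    have h4 : g⁻¹ • P ≠ P := by
      intro h
      exact hg (by rw [← h, smul_inv_smul, h])
    have h5 := Ideal.smul_mem_pointwise_smul g _ _ (h2 _ h4)
    rwa [smul_ideal_pow, smul_inv_smul] at h5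

end Trace

/-- Elements of high powers of a prime have small valuation. -/
theorem exists_pow_lt {R : Type*} [CommRing R] [IsDedekindDomain R] (Q : HeightOneSpectrum R)
    {x : R} (hx : x ≠ 0) : ∃ n : ℕ, ∀ y ∈ Q.asIdeal ^ n, Q.intValuation y < Q.intValuation x := by
  have h1 := Q.intValuation_if_neg hx
  refine ⟨(Associates.mk Q.asIdeal).count (Associates.mk (Ideal.span {x})).factors + 1, ?_⟩
  intro y hy
  refine lt_of_le_of_lt ((Q.intValuation_le_pow_iff_mem y _).2 hy) ?_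
  rw [h1, WithZero.exp_lt_exp]
  push_cast
  omega

/-- Simultaneous approximation by totally positive integers. -/
theorem exists_totPos {F : Type*} [Field F] [NumberField F]
    (S : Finset (HeightOneSpectrum (𝓞 F))) (a : HeightOneSpectrum (𝓞 F) → 𝓞 F)
    (n : HeightOneSpectrum (𝓞 F) → ℕ) :
    ∃ x : 𝓞 F, Pool.Agent.Helper93.DR.TotPos F (x : F) ∧
      ∀ v ∈ S, x - a v ∈ v.asIdeal ^ n v := by
  classical
  obtain ⟨y, hy⟩ := exists_forall_sub_mem_ideal (R := 𝓞 F) (s := S) (fun v => v.asIdeal) n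
    (fun v _ => v.prime) (fun v _ w _ h h' => h (HeightOneSpectrum.ext h')) (fun v => a v.1)
  let I : Ideal (𝓞 F) := ∏ v ∈ S, v.asIdeal ^ n v
  have hI : I ≠ ⊥ := by
    refine Finset.prod_ne_zero_iff.2 (fun v _ => pow_ne_zero _ v.ne_bot)
  have hM : (Ideal.absNorm I : 𝓞 F) ∈ I := Ideal.absNorm_mem I
  have hM0 : 0 < Ideal.absNorm I := Nat.pos_of_ne_zero (fun h => hI (Ideal.absNorm_eq_zero_iff.1 h))
  let t : ℕ := ∑ τ : F →+* ℝ, ⌈|τ (y : F)|⌉₊ + 1
  refine ⟨y + (Ideal.absNorm I : 𝓞 F) * (t : 𝓞 F), ?_, ?_⟩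
  · intro τ
    have h1 : |τ (y : F)| < t := by
      have h2 : |τ (y : F)| ≤ ⌈|τ (y : F)|⌉₊ := Nat.le_ceil _
      have h3 : ⌈|τ (y : F)|⌉₊ ≤ ∑ τ : F →+* ℝ, ⌈|τ (y : F)|⌉₊ :=
        Finset.single_le_sum (f := fun τ : F →+* ℝ => ⌈|τ (y : F)|⌉₊) (fun _ _ => Nat.zero_le _)
          (Finset.mem_univ τ)
      have h4 : (⌈|τ (y : F)|⌉₊ : ℝ) ≤ ((∑ τ : F →+* ℝ, ⌈|τ (y : F)|⌉₊ : ℕ) : ℝ) := by
        exact_mod_cast h3
      have h5 : (t : ℝ) = ((∑ τ : F →+* ℝ, ⌈|τ (y : F)|⌉₊ : ℕ) : ℝ) + 1 := by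
        simp [t]
      linarith
    have h6 : (1 : ℝ) ≤ (Ideal.absNorm I : ℝ) := by exact_mod_cast hM0
    have h7 : (0 : ℝ) ≤ (t : ℝ) := Nat.cast_nonneg _
    have h8 : τ ((y + (Ideal.absNorm I : 𝓞 F) * (t : 𝓞 F) : 𝓞 F) : F) =
        τ (y : F) + (Ideal.absNorm I : ℝ) * (t : ℝ) := by
      simp
    rw [h8]
    have h9 := neg_abs_le (τ (y : F))
    nlinarith
  · intro v hv
    have h1 : (Ideal.absNorm I : 𝓞 F) ∈ v.asIdeal ^ n v :=
      Ideal.le_of_dvd (Finset.dvd_prod_of_mem _ hv) hM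
    have h2 : y + (Ideal.absNorm I : 𝓞 F) * (t : 𝓞 F) - a v =
        (y - a v) + (Ideal.absNorm I : 𝓞 F) * (t : 𝓞 F) := by ring
    rw [h2]
    exact Ideal.add_mem _ (hy v hv) (Ideal.mul_mem_right _ _ h1)

end Pool.Agent.Helper2.LR
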