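import Pool.Agent.Helper2.LR.Lift

/-!
# Base change of representations and decomposition groups
-/

open scoped NumberField Pointwise

namespace Pool.Agent.Helper2.LR

/-- The restriction of the representation `ρ` of `Gal(L/F)` to `Gal(L'/F')`, where `L'` contains
`L` and `F'`. -/
noncomputable def bc {F F' L L' k : Type*} [Field F] [Field F'] [Field L] [Field L'] [Field k]
    [Algebra F F'] [Algebra F L] [Algebra F L'] [Algebra F' L'] [Algebra L L']
    [IsScalarTower F F' L'] [IsScalarTower F L L'] [Normal F L]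
    (ρ : (L ≃ₐ[F] L) →* Matrix.GeneralLinearGroup (Fin 2) k) :
    (L' ≃ₐ[F'] L') →* Matrix.GeneralLinearGroup (Fin 2) k :=
  (ρ.comp (AlgEquiv.restrictNormalHom L : (L' ≃ₐ[F] L') →* (L ≃ₐ[F] L))).comp
    (AlgEquiv.restrictScalarsHom F)

section

variable {F F' L L' k : Type*} [Field F] [NumberField F] [Field F'] [NumberField F']
  [Field L] [NumberField L] [Field L'] [NumberField L'] [Field k]
  [Algebra F F'] [Algebra F L] [Algebra F L'] [Algebra F' L'] [Algebra L L']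
  [IsScalarTower F F' L'] [IsScalarTower F L L'] [IsGalois F L] [IsGalois F L']
  (ρ : (L ≃ₐ[F] L) →* Matrix.GeneralLinearGroup (Fin 2) k)

theorem decIm_bc_le (Q' : Ideal (𝓞 L')) :
    decIm (bc (F' := F') (L' := L') ρ) Q' ≤ decIm ρ (Q'.comap (algebraMap (𝓞 L) (𝓞 L'))) := by
  rintro _ ⟨g, hg, rfl⟩
  exact ⟨AlgEquiv.restrictNormalHom L (AlgEquiv.restrictScalarsHom F g),
    restrict_mem (F := F) Q' (g := AlgEquiv.restrictScalarsHom F g) hg, rfl⟩

theorem ramified_of_bc (Q' : Ideal (𝓞 L')) (h : Ramified (bc (F' := F') (L' := L') ρ) Q') :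
    Ramified ρ (Q'.comap (algebraMap (𝓞 L) (𝓞 L'))) := by
  obtain ⟨g, hg, hne⟩ := h
  exact ⟨AlgEquiv.restrictNormalHom L (AlgEquiv.restrictScalarsHom F g),
    restrict_inertia (F := F) Q' (g := AlgEquiv.restrictScalarsHom F g) hg, hne⟩

/-- If `F'` is at most quadratic over `F` and the image of the decomposition group has no subgroup
of index two, it does not change. -/
theorem decIm_bc_eq [IsGalois F F'] (hcard : Nat.card (F' ≃ₐ[F] F') ∣ 2) (Q' : Ideal (𝓞 L'))
    [Q'.IsMaximal] (h2 : ¬ HasIdxTwo (decIm ρ (Q'.comap (algebraMap (𝓞 L) (𝓞 L'))))) :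
    decIm (bc (F' := F') (L' := L') ρ) Q' = decIm ρ (Q'.comap (algebraMap (𝓞 L) (𝓞 L'))) := by
  set A := decIm (bc (F' := F') (L' := L') ρ) Q' with hA
  set B := decIm ρ (Q'.comap (algebraMap (𝓞 L) (𝓞 L'))) with hB
  have hle : A ≤ B := decIm_bc_le ρ Q'
  -- elements of `Gal(L'/F)` trivial on `F'`
  have hmem : ∀ g : L' ≃ₐ[F] L', g • Q' = Q' → AlgEquiv.restrictNormalHom F' g = 1 →
      ρ (AlgEquiv.restrictNormalHom L g) ∈ A := by
    intro g hg h1
    have h3 : ∀ x : F', g (algebraMap F' L' x) = algebraMap F' L' x := by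
      intro x
      have h4 := AlgEquiv.restrictNormal_commutes g F' x
      have h5 : g.restrictNormal F' = 1 := h1
      rw [h5] at h4
      exact h4.symm
    exact ⟨AlgEquiv.ofRingEquiv (f := (g : L' ≃+* L')) h3, hg, rfl⟩
  have htwo : ∀ σ τ : F' ≃ₐ[F] F', σ ≠ 1 → τ ≠ 1 → σ * τ = 1 := by
    intro σ τ hσ hτ
    have hfin : Finite (F' ≃ₐ[F] F') := by
      have : FiniteDimensional F F' := Module.Finite.of_restrictScalars_finite ℚ F F'
      infer_instance
    rcases (Nat.dvd_prime Nat.prime_two).mp hcard with h | h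
    · have := (Nat.card_eq_one_iff_unique.mp h).1
      exact absurd (Subsingleton.elim σ 1) hσ
    · obtain ⟨y, -, hy⟩ := (Nat.card_eq_two_iff' (1 : F' ≃ₐ[F] F')).mp h
      have h6 : σ = τ⁻¹ := (hy σ hσ).trans (hy _ (inv_ne_one.mpr hτ)).symm
      rw [h6, inv_mul_cancel]
  have hprod : ∀ x y : Matrix.GeneralLinearGroup (Fin 2) k, x ∈ B → y ∈ B → x ∉ A → y ∉ A →
      x * y ∈ A := by
    rintro _ _ ⟨g, hg, rfl⟩ ⟨h, hh, rfl⟩ hgA hhA
    obtain ⟨g', hg', rfl⟩ := exists_lift (F := F) (L' := L') Q' hg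
    obtain ⟨h', hh', rfl⟩ := exists_lift (F := F) (L' := L') Q' hh
    rw [← map_mul, ← map_mul]
    refine hmem _ (by rw [mul_smul, hh', hg']) ?_
    rw [map_mul]
    exact htwo _ _ (fun h1 => hgA (hmem _ hg' h1)) (fun h1 => hhA (hmem _ hh' h1))
  by_contra hne
  obtain ⟨x, hxB, hxA⟩ := SetLike.not_le_iff_exists.mp fun h : B ≤ A => hne (le_antisymm hle h)
  refine h2 ⟨A.subgroupOf B, ?_⟩
  rw [Subgroup.index_eq_two_iff]
  refine ⟨⟨x, hxB⟩, fun b => ?_⟩
  rw [Subgroup.mem_subgroupOf, Subgroup.mem_subgroupOf, Subgroup.coe_mul]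
  by_cases hb : (b : Matrix.GeneralLinearGroup (Fin 2) k) ∈ A
  · exact Or.inr ⟨hb, fun h => hxA ((Subgroup.mul_mem_cancel_left A hb).mp h)⟩
  · exact Or.inl ⟨hprod _ _ b.2 hxB hb hxA, hb⟩

end

end Pool.Agent.Helper2.LR
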