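import Pool.Agent.Helper2.LR.Tame

/-!
# Decomposition groups are solvable
-/

open scoped NumberField Pointwise

namespace Pool.Agent.Helper2.LR

variable {F L : Type*} [Field F] [NumberField F] [Field L] [NumberField L] [Algebra F L]

/-- The quotient of the decomposition group by the inertia group is cyclic. -/
theorem quot_cyclic (Q : Ideal (𝓞 L)) [Q.IsMaximal] [IsGalois F L] :
    IsCyclic (MulAction.stabilizer (L ≃ₐ[F] L) Q ⧸
      Q.inertia (MulAction.stabilizer (L ≃ₐ[F] L) Q)) := by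
  have hP : (Q.under (𝓞 F)).IsMaximal := inferInstance
  let := Ideal.Quotient.field Q
  let := Ideal.Quotient.field (Q.under (𝓞 F))
  have e := Ideal.Quotient.stabilizerQuotientInertiaEquiv (L ≃ₐ[F] L) (Q.under (𝓞 F)) Q
  have hfin : Finite (𝓞 L ⧸ Q) := inferInstance
  have hc : IsCyclic ((𝓞 L ⧸ Q) ≃ₐ[𝓞 F ⧸ Q.under (𝓞 F)] (𝓞 L ⧸ Q)) := inferInstance
  exact isCyclic_of_surjective e.symm e.symm.surjective

/-- Some prime number lies in the maximal ideal `Q`. -/
theorem exists_prime_mem (Q : Ideal (𝓞 L)) [Q.IsMaximal] :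
    ∃ ℓ : ℕ, ℓ.Prime ∧ (ℓ : 𝓞 L) ∈ Q := by
  let := Ideal.Quotient.field Q
  obtain ⟨ℓ, hℓ⟩ := CharP.exists (𝓞 L ⧸ Q)
  have hfin : Finite (𝓞 L ⧸ Q) := inferInstance
  refine ⟨ℓ, CharP.char_is_prime (𝓞 L ⧸ Q) ℓ, ?_⟩
  rw [← Ideal.Quotient.eq_zero_iff_mem, map_natCast]
  exact CharP.cast_eq_zero _ _

/-- A hom to a commutative group with solvable kernel: the group is solvable. -/
theorem solvable_of_hom {G A : Type*} [Group G] [CommGroup A] (θ : G →* A)
    (h : Group.IsSolvable θ.ker) : Group.IsSolvable G :=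
  Group.isSolvable_of_ker_le_range θ.ker.subtype θ (by rw [Subgroup.range_subtype])

/-- Decomposition groups are solvable. -/
theorem stabilizer_solvable (Q : Ideal (𝓞 L)) [Q.IsMaximal] [IsGalois F L] :
    Group.IsSolvable (MulAction.stabilizer (L ≃ₐ[F] L) Q) := by
  obtain ⟨ℓ, hp, hℓ⟩ := exists_prime_mem Q
  have : Fact ℓ.Prime := ⟨hp⟩
  obtain ⟨θ, hθ⟩ := exists_tame (F := F) Q hℓ
  have hfin : Finite (L ≃ₐ[F] L) := inferInstance
  have hnil : Group.IsNilpotent θ.ker := hθ.isNilpotent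
  have hI : Group.IsSolvable (Q.inertia (MulAction.stabilizer (L ≃ₐ[F] L) Q)) :=
    solvable_of_hom θ inferInstance
  have hcyc := quot_cyclic (F := F) Q
  have hq : Group.IsSolvable (MulAction.stabilizer (L ≃ₐ[F] L) Q ⧸
      Q.inertia (MulAction.stabilizer (L ≃ₐ[F] L) Q)) := by
    let := hcyc.commGroup
    infer_instance
  exact (Group.isSolvable_iff_subgroup_quotient _).2 ⟨hI, hq⟩

end Pool.Agent.Helper2.LR
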