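import Mathlib

/-!
# Decomposition groups and their images: definitions

`L / F` is a Galois extension of number fields, `ρ` a representation of `Gal(L/F)` in `GL₂(k)`.
-/

open scoped NumberField Pointwise

namespace Pool.Agent.Helper2.LR

/-- The group `G` has a subgroup of index two. -/
def HasIdxTwo (G : Type*) [Group G] : Prop := ∃ K : Subgroup G, K.index = 2

/-- The subgroup `H` of `GL₂(k)` fixes a line. -/
def FixesLine {k : Type*} [Field k] (H : Subgroup (Matrix.GeneralLinearGroup (Fin 2) k)) : Prop :=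
  ∃ v : Fin 2 → k, v ≠ 0 ∧ ∀ g ∈ H, ∃ c : k,
    Matrix.mulVec (g : Matrix (Fin 2) (Fin 2) k) v = c • v

section

variable {F L k : Type*} [Field F] [NumberField F] [Field L] [NumberField L] [Algebra F L]
  [Field k]

/-- The image under `ρ` of the decomposition group of the ideal `Q` of `𝓞 L`. -/
def decIm (ρ : (L ≃ₐ[F] L) →* Matrix.GeneralLinearGroup (Fin 2) k) (Q : Ideal (𝓞 L)) :
    Subgroup (Matrix.GeneralLinearGroup (Fin 2) k) :=
  (MulAction.stabilizer (L ≃ₐ[F] L) Q).map ρ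

/-- `ρ` is ramified at `Q`: some element of the inertia group of `Q` is not in the kernel. -/
def Ramified (ρ : (L ≃ₐ[F] L) →* Matrix.GeneralLinearGroup (Fin 2) k) (Q : Ideal (𝓞 L)) : Prop :=
  ∃ g : L ≃ₐ[F] L, (∀ x : 𝓞 L, g • x - x ∈ Q) ∧ ρ g ≠ 1

/-- `ρ` is bad at `Q`: `Q` contains `m` or `ρ` is ramified at `Q`, and the image of the
decomposition group has a subgroup of index two. -/
def Bad (m : ℕ) (ρ : (L ≃ₐ[F] L) →* Matrix.GeneralLinearGroup (Fin 2) k) (Q : Ideal (𝓞 L)) :
    Prop :=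
  ((m : 𝓞 L) ∈ Q ∨ Ramified ρ Q) ∧ HasIdxTwo (decIm ρ Q)

end

end Pool.Agent.Helper2.LR
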