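import Pool.Agent.Helper2.LR.Defs

/-!
# Solvable groups without subgroups of index two fix a line in characteristic two
-/

namespace Pool.Agent.Helper2.LR

open Matrix
open scoped commutatorElement

section aux

variable {k : Type*} [Field k]

/-- the determinant of two vectors -/
private def dd (v w : Fin 2 → k) : k := v 0 * w 1 - v 1 * w 0

private theorem ne_zero_of_dd {v w : Fin 2 → k} (h : dd v w ≠ 0) : v ≠ 0 ∧ w ≠ 0 := by
  constructor
  · rintro rfl
    apply h
    simp [dd]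
  · rintro rfl
    apply h
    simp [dd]

private theorem par_of_dd {v w : Fin 2 → k} (hv : v ≠ 0) (h : dd v w = 0) :
    ∃ c : k, w = c • v := by
  unfold dd at h
  by_cases h0 : v 0 = 0
  · have h1 : v 1 ≠ 0 := by
      intro h1
      apply hv
      ext i
      fin_cases i
      · exact h0
      · exact h1
    have h2 : w 0 = 0 := by
      rw [h0, zero_mul, zero_sub, neg_eq_zero] at h
      exact (mul_eq_zero.1 h).resolve_left h1
    refine ⟨w 1 / v 1, ?_⟩
    ext i
    fin_cases i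
    · change w 0 = w 1 / v 1 * v 0
      rw [h0, h2, mul_zero]
    · change w 1 = w 1 / v 1 * v 1
      rw [div_mul_cancel₀ _ h1]
  · refine ⟨w 0 / v 0, ?_⟩
    ext i
    fin_cases i
    · change w 0 = w 0 / v 0 * v 0
      rw [div_mul_cancel₀ _ h0]
    · change w 1 = w 0 / v 0 * v 1
      rw [div_mul_eq_mul_div, eq_div_iff h0]
      linear_combination h

private theorem dd_par {v : Fin 2 → k} (c : k) : dd v (c • v) = 0 := by
  unfold dd
  change v 0 * (c * v 1) - v 1 * (c * v 0) = 0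
  ring

/-- Cramer -/
private theorem cramer (v w u : Fin 2 → k) : dd v w • u = dd u w • v + dd v u • w := by
  ext i
  fin_cases i
  · change dd v w * u 0 = dd u w * v 0 + dd v u * w 0
    unfold dd
    ring
  · change dd v w * u 1 = dd u w * v 1 + dd v u * w 1
    unfold dd
    ring

private theorem cramer' {v w : Fin 2 → k} (h : dd v w ≠ 0) (u : Fin 2 → k) :
    ∃ α β : k, u = α • v + β • w := by
  refine ⟨dd u w / dd v w, dd v u / dd v w, ?_⟩
  have h1 := cramer v w u
  have h2 : u = (dd v w)⁻¹ • (dd v w • u) := by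
    rw [smul_smul, inv_mul_cancel₀ h, one_smul]
  calc u = (dd v w)⁻¹ • (dd v w • u) := h2
    _ = (dd v w)⁻¹ • (dd u w • v + dd v u • w) := by rw [h1]
    _ = _ := by rw [smul_add, smul_smul, smul_smul, div_eq_inv_mul, div_eq_inv_mul]

/-- scalar matrices, by their action -/
private def Sc (M : Matrix (Fin 2) (Fin 2) k) : Prop := ∃ μ : k, ∀ u : Fin 2 → k, M *ᵥ u = μ • u

private theorem eq_of_sc {M : Matrix (Fin 2) (Fin 2) k} {μ : k}
    (h : ∀ u : Fin 2 → k, M *ᵥ u = μ • u) : M = μ • (1 : Matrix (Fin 2) (Fin 2) k) := by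
  apply Matrix.mulVec_injective
  funext u
  rw [h, Matrix.smul_mulVec, Matrix.one_mulVec]

private theorem sc_of_two {M : Matrix (Fin 2) (Fin 2) k} {μ : k} {v w : Fin 2 → k}
    (h : dd v w ≠ 0) (hv : M *ᵥ v = μ • v) (hw : M *ᵥ w = μ • w) : Sc M := by
  refine ⟨μ, fun u => ?_⟩
  obtain ⟨α, β, rfl⟩ := cramer' h u
  rw [Matrix.mulVec_add, Matrix.mulVec_smul, Matrix.mulVec_smul, hv, hw, smul_add, smul_comm μ α,
    smul_comm μ β]

/-- an eigenvector of a matrix with two eigenlines lies on one of them -/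
private theorem eig_two {M : Matrix (Fin 2) (Fin 2) k} (hM : ¬ Sc M) {μ μ' ν : k}
    {v w u : Fin 2 → k} (h : dd v w ≠ 0) (hv : M *ᵥ v = μ • v) (hw : M *ᵥ w = μ' • w)
    (hu : M *ᵥ u = ν • u) : (∃ c : k, u = c • v) ∨ (∃ c : k, u = c • w) := by
  have hne : μ ≠ μ' := by
    rintro rfl
    exact hM (sc_of_two h hv hw)
  obtain ⟨α, β, rfl⟩ := cramer' h u
  have h1 : (α * (μ - ν)) • v = (-(β * (μ' - ν))) • w := by
    rw [Matrix.mulVec_add, Matrix.mulVec_smul, Matrix.mulVec_smul, hv, hw, smul_add, smul_smul,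
      smul_smul, smul_smul, smul_smul] at hu
    have h2 : (α * (μ - ν)) • v - (-(β * (μ' - ν))) • w =
        ((α * μ) • v + (β * μ') • w) - ((ν * α) • v + (ν * β) • w) := by
      ext i
      simp only [Pi.sub_apply, Pi.add_apply, Pi.smul_apply, smul_eq_mul]
      ring
    rw [hu, sub_self] at h2
    exact sub_eq_zero.1 h2
  -- both coefficients vanish
  have h3 : α * (μ - ν) = 0 := by
    have h4 : dd ((α * (μ - ν)) • v) w = 0 := by
      rw [h1]
      unfold dd
      change (-(β * (μ' - ν))) * w 0 * w 1 - (-(β * (μ' - ν))) * w 1 * w 0 = 0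
      ring
    have h5 : dd ((α * (μ - ν)) • v) w = (α * (μ - ν)) * dd v w := by
      unfold dd
      change (α * (μ - ν)) * v 0 * w 1 - (α * (μ - ν)) * v 1 * w 0 = _
      ring
    rw [h5] at h4
    exact (mul_eq_zero.1 h4).resolve_right h
  have h6 : β * (μ' - ν) = 0 := by
    have h4 : dd v ((-(β * (μ' - ν))) • w) = 0 := by
      rw [← h1]
      exact dd_par _
    have h5 : dd v ((-(β * (μ' - ν))) • w) = -(β * (μ' - ν)) * dd v w := by
      unfold dd
      change v 0 * (-(β * (μ' - ν)) * w 1) - v 1 * (-(β * (μ' - ν)) * w 0) = _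
      ring
    rw [h5] at h4
    exact neg_eq_zero.1 ((mul_eq_zero.1 h4).resolve_right h)
  rcases mul_eq_zero.1 h3 with h7 | h7
  · right
    exact ⟨β, by rw [h7, zero_smul, zero_add]⟩
  · rcases mul_eq_zero.1 h6 with h8 | h8
    · left
      exact ⟨α, by rw [h8, zero_smul, add_zero]⟩
    · exact absurd ((sub_eq_zero.1 h7).trans (sub_eq_zero.1 h8).symm) hne

/-- eigenvectors exist -/
private theorem exists_eig [IsAlgClosed k] (M : Matrix (Fin 2) (Fin 2) k) :
    ∃ (v : Fin 2 → k) (μ : k), v ≠ 0 ∧ M *ᵥ v = μ • v := by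
  obtain ⟨μ, hμ⟩ := Module.End.exists_eigenvalue (Matrix.toLin' M)
  obtain ⟨v, hv⟩ := hμ.exists_hasEigenvector
  refine ⟨v, μ, hv.2, ?_⟩
  have := hv.apply_eq_smul
  rwa [Matrix.toLin'_apply] at this

end aux

section groups

variable {k : Type*} [Field k]

/-- action of a product -/
private theorem mulVec_mul' (g h : Matrix.GeneralLinearGroup (Fin 2) k) (v : Fin 2 → k) :
    ((g * h : Matrix.GeneralLinearGroup (Fin 2) k) : Matrix (Fin 2) (Fin 2) k) *ᵥ v =
      (g : Matrix (Fin 2) (Fin 2) k) *ᵥ ((h : Matrix (Fin 2) (Fin 2) k) *ᵥ v) := by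
  rw [Matrix.mulVec_mulVec]
  rfl

private theorem one_mulVec' (v : Fin 2 → k) :
    ((1 : Matrix.GeneralLinearGroup (Fin 2) k) : Matrix (Fin 2) (Fin 2) k) *ᵥ v = v := by
  rw [Units.val_one, Matrix.one_mulVec]

private theorem inv_mulVec' (g : Matrix.GeneralLinearGroup (Fin 2) k) (v : Fin 2 → k) :
    ((g⁻¹ : Matrix.GeneralLinearGroup (Fin 2) k) : Matrix (Fin 2) (Fin 2) k) *ᵥ
      ((g : Matrix (Fin 2) (Fin 2) k) *ᵥ v) = v := by
  rw [← mulVec_mul', inv_mul_cancel, one_mulVec']

private theorem mulVec_inj' (g : Matrix.GeneralLinearGroup (Fin 2) k) {v w : Fin 2 → k}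
    (h : (g : Matrix (Fin 2) (Fin 2) k) *ᵥ v = (g : Matrix (Fin 2) (Fin 2) k) *ᵥ w) : v = w := by
  rw [← inv_mulVec' g v, h, inv_mulVec']

private theorem mulVec_ne' (g : Matrix.GeneralLinearGroup (Fin 2) k) {v : Fin 2 → k}
    (h : v ≠ 0) : (g : Matrix (Fin 2) (Fin 2) k) *ᵥ v ≠ 0 := by
  intro h0
  apply h
  apply mulVec_inj' g
  rw [h0, Matrix.mulVec_zero]

/-- eigenvectors of the inverse -/
private theorem eig_inv (g : Matrix.GeneralLinearGroup (Fin 2) k) {v : Fin 2 → k} (hv : v ≠ 0)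
    {c : k} (h : (g : Matrix (Fin 2) (Fin 2) k) *ᵥ v = c • v) :
    ((g⁻¹ : Matrix.GeneralLinearGroup (Fin 2) k) : Matrix (Fin 2) (Fin 2) k) *ᵥ v = c⁻¹ • v := by
  have hc : c ≠ 0 := by
    rintro rfl
    rw [zero_smul] at h
    exact mulVec_ne' g hv h
  have h1 := inv_mulVec' g v
  rw [h, Matrix.mulVec_smul] at h1
  have h2 : c⁻¹ • (c • (((g⁻¹ : Matrix.GeneralLinearGroup (Fin 2) k) :
      Matrix (Fin 2) (Fin 2) k) *ᵥ v)) = c⁻¹ • v := by rw [h1]
  rwa [smul_smul, inv_mul_cancel₀ hc, one_smul] at h2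

/-- a commutator which is scalar is trivial in characteristic two -/
private theorem comm_of_sc [CharP k 2] (x y : Matrix.GeneralLinearGroup (Fin 2) k)
    (h : Sc ((⁅x, y⁆ : Matrix.GeneralLinearGroup (Fin 2) k) : Matrix (Fin 2) (Fin 2) k)) :
    x * y = y * x := by
  obtain ⟨μ, hμ⟩ := h
  have h1 := eq_of_sc hμ
  have h2 : Matrix.det ((⁅x, y⁆ : Matrix.GeneralLinearGroup (Fin 2) k) :
      Matrix (Fin 2) (Fin 2) k) = 1 := by
    have h3 : Matrix.GeneralLinearGroup.det ⁅x, y⁆ = 1 := by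
      rw [map_commutatorElement, commutatorElement_eq_one_iff_mul_comm, mul_comm]
    have h4 := congrArg Units.val h3
    rwa [Matrix.GeneralLinearGroup.val_det_apply, Units.val_one] at h4
  rw [h1, Matrix.det_smul, Matrix.det_one, mul_one, Fintype.card_fin] at h2
  have h5 : (2 : k) = 0 := CharTwo.two_eq_zero
  have h6 : (μ - 1) ^ 2 = 0 := by linear_combination h2 + (1 - μ) * h5
  have h7 : μ = 1 := sub_eq_zero.1 (pow_eq_zero_iff (two_ne_zero) |>.1 h6)
  rw [h7, one_smul] at h1
  have h8 : ⁅x, y⁆ = 1 := Units.ext h1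
  exact commutatorElement_eq_one_iff_mul_comm.1 h8

end groups

/-- A solvable subgroup of `GL₂(k)`, `k` algebraically closed of characteristic two, without
subgroups of index two fixes a line. -/
theorem fixesLine_of_solvable {k : Type*} [Field k] [CharP k 2] [IsAlgClosed k]
    (H : Subgroup (Matrix.GeneralLinearGroup (Fin 2) k)) (hs : Group.IsSolvable H)
    (h2 : ¬ HasIdxTwo H) : FixesLine H := by
  classical
  -- the last term of the derived series which is not scalar
  obtain ⟨N, hN⟩ := hs.solvable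
  have hex : ∃ n, ∀ g ∈ derivedSeries H n, Sc ((g : Matrix.GeneralLinearGroup (Fin 2) k) :
      Matrix (Fin 2) (Fin 2) k) := by
    refine ⟨N, fun g hg => ?_⟩
    rw [hN, Subgroup.mem_bot] at hg
    refine ⟨1, fun u => ?_⟩
    rw [hg, one_smul]
    exact one_mulVec' u
  obtain ⟨n0, hn0, hmin⟩ : ∃ n0, (∀ g ∈ derivedSeries H n0,
      Sc ((g : Matrix.GeneralLinearGroup (Fin 2) k) : Matrix (Fin 2) (Fin 2) k)) ∧
      ∀ m, m < n0 → ¬ ∀ g ∈ derivedSeries H m,
        Sc ((g : Matrix.GeneralLinearGroup (Fin 2) k) : Matrix (Fin 2) (Fin 2) k) :=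
    ⟨Nat.find hex, Nat.find_spec hex, fun m hm => Nat.find_min hex hm⟩
  rcases Nat.eq_zero_or_pos n0 with h0 | hpos
  · -- all of `H` is scalar
    subst h0
    refine ⟨![1, 0], ?_, fun g hg => ?_⟩
    · intro h
      have := congrFun h 0
      simp at this
    · obtain ⟨μ, hμ⟩ := hn0 ⟨g, hg⟩ (by rw [derivedSeries_zero]; exact Subgroup.mem_top _)
      exact ⟨μ, hμ _⟩
  · obtain ⟨i, rfl⟩ : ∃ i, n0 = i + 1 := ⟨n0 - 1, by omega⟩
    have hi := hmin i (Nat.lt_succ_self i)
    push Not at hi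
    obtain ⟨a, ha, hna⟩ := hi
    -- `A` is commutative
    have hcomm : ∀ x ∈ derivedSeries H i, ∀ y ∈ derivedSeries H i, x * y = y * x := by
      intro x hx y hy
      have h1 : ⁅x, y⁆ ∈ derivedSeries H (i + 1) := by
        rw [derivedSeries_succ]
        exact Subgroup.commutator_mem_commutator hx hy
      have h3 := comm_of_sc (x : Matrix.GeneralLinearGroup (Fin 2) k)
        (y : Matrix.GeneralLinearGroup (Fin 2) k) (hn0 _ h1)
      exact Subtype.ext h3
    obtain ⟨v, μ, hv, hav⟩ := exists_eig ((a : Matrix.GeneralLinearGroup (Fin 2) k) :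
      Matrix (Fin 2) (Fin 2) k)
    -- `v` is a common eigenvector of `A`
    have hAv : ∀ x ∈ derivedSeries H i, ∃ c : k,
        ((x : Matrix.GeneralLinearGroup (Fin 2) k) : Matrix (Fin 2) (Fin 2) k) *ᵥ v = c • v := by
      intro x hx
      apply par_of_dd hv
      by_contra hd
      apply hna
      refine sc_of_two hd hav ?_
      have h3 : ((a : Matrix.GeneralLinearGroup (Fin 2) k)) * x = x * a := by
        exact congrArg Subtype.val (hcomm a ha x hx)
      rw [← mulVec_mul', h3, mulVec_mul', hav, Matrix.mulVec_smul]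
    -- and so are all its translates
    have hAh : ∀ (h : H), ∀ x ∈ derivedSeries H i, ∃ c : k,
        ((x : Matrix.GeneralLinearGroup (Fin 2) k) : Matrix (Fin 2) (Fin 2) k) *ᵥ
          (((h : Matrix.GeneralLinearGroup (Fin 2) k) : Matrix (Fin 2) (Fin 2) k) *ᵥ v) =
        c • (((h : Matrix.GeneralLinearGroup (Fin 2) k) : Matrix (Fin 2) (Fin 2) k) *ᵥ v) := by
      intro h x hx
      have hx' : h⁻¹ * x * h ∈ derivedSeries H i := by
        have hn : (derivedSeries H i).Normal := derivedSeries_normal H i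
        have := hn.conj_mem x hx h⁻¹
        rwa [inv_inv] at this
      obtain ⟨c, hc⟩ := hAv _ hx'
      refine ⟨c, ?_⟩
      have h3 : (x : Matrix.GeneralLinearGroup (Fin 2) k) * h =
          h * ((h⁻¹ * x * h : H) : Matrix.GeneralLinearGroup (Fin 2) k) := by
        have h4 : x * h = h * (h⁻¹ * x * h) := by group
        exact congrArg Subtype.val h4
      rw [← mulVec_mul', h3, mulVec_mul', hc, Matrix.mulVec_smul]
    by_contra hno
    -- an element moving the line
    have hmove : ∃ h0 : H, dd v (((h0 : Matrix.GeneralLinearGroup (Fin 2) k) :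
        Matrix (Fin 2) (Fin 2) k) *ᵥ v) ≠ 0 := by
      by_contra hcon
      push Not at hcon
      exact hno ⟨v, hv, fun g hg => par_of_dd hv (hcon ⟨g, hg⟩)⟩
    obtain ⟨h0, hd0⟩ := hmove
    obtain ⟨w, hw⟩ : ∃ w, w = ((h0 : Matrix.GeneralLinearGroup (Fin 2) k) :
        Matrix (Fin 2) (Fin 2) k) *ᵥ v := ⟨_, rfl⟩
    rw [← hw] at hd0
    obtain ⟨μ', haw⟩ := hAh h0 a ha
    rw [← hw] at haw
    have hwne : w ≠ 0 := (ne_zero_of_dd hd0).2
    -- all translates of `v` lie on the two lines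
    have htwo : ∀ h : H, (∃ c : k, ((h : Matrix.GeneralLinearGroup (Fin 2) k) :
        Matrix (Fin 2) (Fin 2) k) *ᵥ v = c • v) ∨
        (∃ c : k, ((h : Matrix.GeneralLinearGroup (Fin 2) k) :
          Matrix (Fin 2) (Fin 2) k) *ᵥ v = c • w) := by
      intro h
      obtain ⟨ν, hν⟩ := hAh h a ha
      exact eig_two hna hd0 hav haw hν
    -- the stabiliser of the line
    let K : Subgroup H :=
      { carrier := {h | ∃ c : k, ((h : Matrix.GeneralLinearGroup (Fin 2) k) :
          Matrix (Fin 2) (Fin 2) k) *ᵥ v = c • v}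
        one_mem' := ⟨1, by rw [one_smul]; exact one_mulVec' v⟩
        mul_mem' := by
          rintro x y ⟨c, hc⟩ ⟨d, hd⟩
          refine ⟨d * c, ?_⟩
          have : ((x * y : H) : Matrix.GeneralLinearGroup (Fin 2) k) =
            (x : Matrix.GeneralLinearGroup (Fin 2) k) * y := rfl
          rw [this, mulVec_mul', hd, Matrix.mulVec_smul, hc, smul_smul]
        inv_mem' := by
          rintro x ⟨c, hc⟩
          exact ⟨c⁻¹, eig_inv _ hv hc⟩ }
    have hK : ∀ h : H, h ∈ K ↔ ∃ c : k, ((h : Matrix.GeneralLinearGroup (Fin 2) k) :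
        Matrix (Fin 2) (Fin 2) k) *ᵥ v = c • v := fun h => Iff.rfl
    -- no element maps two independent vectors to the same line
    have hinj : ∀ (h : H) (u : Fin 2 → k), u ≠ 0 →
        (∃ c : k, ((h : Matrix.GeneralLinearGroup (Fin 2) k) : Matrix (Fin 2) (Fin 2) k) *ᵥ v =
          c • u) →
        ¬ (∃ c : k, ((h : Matrix.GeneralLinearGroup (Fin 2) k) : Matrix (Fin 2) (Fin 2) k) *ᵥ w =
          c • u) := by
      rintro h u hu ⟨c, hc⟩ ⟨d, hd⟩
      have hc0 : c ≠ 0 := by
        rintro rfl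
        rw [zero_smul] at hc
        exact mulVec_ne' _ hv hc
      have h3 : ((h : Matrix.GeneralLinearGroup (Fin 2) k) : Matrix (Fin 2) (Fin 2) k) *ᵥ
          (c • w) = ((h : Matrix.GeneralLinearGroup (Fin 2) k) :
            Matrix (Fin 2) (Fin 2) k) *ᵥ (d • v) := by
        rw [Matrix.mulVec_smul, Matrix.mulVec_smul, hc, hd, smul_smul, smul_smul, mul_comm]
      have h4 := mulVec_inj' _ h3
      apply hd0
      have h5 : w = (c⁻¹ * d) • v := by
        rw [← smul_smul, ← h4, smul_smul, inv_mul_cancel₀ hc0, one_smul]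
      rw [h5]
      exact dd_par _
    -- `h w` lies on the two lines
    have hbw : ∀ b : H, ((b : Matrix.GeneralLinearGroup (Fin 2) k) :
        Matrix (Fin 2) (Fin 2) k) *ᵥ w =
        ((b * h0 : H) : Matrix.GeneralLinearGroup (Fin 2) k).val *ᵥ v := by
      intro b
      have : ((b * h0 : H) : Matrix.GeneralLinearGroup (Fin 2) k) =
        (b : Matrix.GeneralLinearGroup (Fin 2) k) * h0 := rfl
      rw [this, mulVec_mul', hw]
    apply h2
    refine ⟨K, Subgroup.index_eq_two_iff.2 ⟨h0, fun b => ?_⟩⟩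
    by_cases hb : b ∈ K
    · right
      refine ⟨hb, fun hb0 => ?_⟩
      refine hinj b v hv ((hK b).1 hb) ?_
      rw [hbw]
      exact (hK _).1 hb0
    · left
      refine ⟨?_, hb⟩
      rw [hK]
      rcases htwo (b * h0) with h3 | h3
      · exact h3
      · exfalso
        rcases htwo b with h4 | h4
        · exact hb ((hK b).2 h4)
        · refine hinj b w hwne h4 ?_
          rw [hbw]
          exact h3

/-- A cyclic subgroup of `GL₂(k)`, `k` algebraically closed, fixes a line. -/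
theorem fixesLine_of_cyclic {k : Type*} [Field k] [IsAlgClosed k]
    (H : Subgroup (Matrix.GeneralLinearGroup (Fin 2) k)) (hc : IsCyclic H) : FixesLine H := by
  obtain ⟨g, hg⟩ := hc.exists_generator
  obtain ⟨v, μ, hv, hgv⟩ := exists_eig ((g : Matrix.GeneralLinearGroup (Fin 2) k) :
    Matrix (Fin 2) (Fin 2) k)
  refine ⟨v, hv, fun x hx => ?_⟩
  obtain ⟨n, hn⟩ := Subgroup.mem_zpowers_iff.1 (hg ⟨x, hx⟩)
  have hx' : x = (g : Matrix.GeneralLinearGroup (Fin 2) k) ^ n := by
    have := congrArg Subtype.val hn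
    exact this.symm
  -- natural powers
  have hnat : ∀ (y : Matrix.GeneralLinearGroup (Fin 2) k) (c : k),
      (y : Matrix (Fin 2) (Fin 2) k) *ᵥ v = c • v → ∀ m : ℕ,
      ((y ^ m : Matrix.GeneralLinearGroup (Fin 2) k) : Matrix (Fin 2) (Fin 2) k) *ᵥ v =
        c ^ m • v := by
    intro y c hy m
    induction m with
    | zero => rw [pow_zero, pow_zero, one_smul]; exact one_mulVec' v
    | succ m ih =>
      rw [pow_succ, mulVec_mul', hy, Matrix.mulVec_smul, ih, smul_smul, pow_succ, mul_comm]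
  rw [hx']
  cases n with
  | ofNat m =>
    refine ⟨μ ^ m, ?_⟩
    have := hnat _ μ hgv m
    simpa using this
  | negSucc m =>
    refine ⟨(μ⁻¹) ^ (m + 1), ?_⟩
    have := hnat _ μ⁻¹ (eig_inv _ hv hgv) (m + 1)
    rw [zpow_negSucc, ← inv_pow]
    exact this

end Pool.Agent.Helper2.LR
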