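import Pool.Agent.Helper2.LR.Defs

/-!
# Decomposition groups and close square roots
-/

open scoped NumberField Pointwise
open IsDedekindDomain

namespace Pool.Agent.Helper2.LR

section

variable {F L : Type*} [Field F] [NumberField F] [Field L] [NumberField L] [Algebra F L]

theorem smul_mem_powK {Q : Ideal (𝓞 L)} {g : L ≃ₐ[F] L} {P : Ideal (𝓞 L)} (hg : g • Q = P) {n : ℕ}
    {x : 𝓞 L} (hx : x ∈ Q ^ n) : g • x ∈ P ^ n := by
  rw [← hg, Ideal.pointwise_smul_def, ← Ideal.map_pow]
  exact Ideal.mem_map_of_mem _ hx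

theorem intValuation_smul_le (Q : HeightOneSpectrum (𝓞 L)) {g : L ≃ₐ[F] L}
    (hg : g • Q.asIdeal = Q.asIdeal) (x : 𝓞 L) : Q.intValuation (g • x) ≤ Q.intValuation x := by
  rcases eq_or_ne x 0 with rfl | hx
  · rw [smul_zero]
  · rw [Q.intValuation_eq_exp_neg_multiplicity hx, Q.intValuation_le_pow_iff_mem]
    refine smul_mem_powK hg ?_
    rw [← Q.intValuation_le_pow_iff_mem, ← Q.intValuation_eq_exp_neg_multiplicity hx]

/-- The valuation is invariant under the decomposition group. -/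
theorem intValuation_smul (Q : HeightOneSpectrum (𝓞 L)) {g : L ≃ₐ[F] L}
    (hg : g • Q.asIdeal = Q.asIdeal) (x : 𝓞 L) : Q.intValuation (g • x) = Q.intValuation x := by
  refine le_antisymm (intValuation_smul_le Q hg x) ?_
  have h1 := intValuation_smul_le Q (g := g⁻¹) (by rw [inv_smul_eq_iff, hg]) (g • x)
  rwa [inv_smul_smul] at h1

end

/-- If `a` is close to `s²`, then the elements of the decomposition group which fix a square root
of `a` fix `s`. -/
theorem smul_eq_of_close {F L L' : Type*} [Field F] [NumberField F] [Field L] [NumberField L]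
    [Field L'] [NumberField L'] [Algebra F L] [Algebra F L'] [Algebra L L'] [IsScalarTower F L L']
    [IsGalois F L] (Q' : HeightOneSpectrum (𝓞 L')) (Q : HeightOneSpectrum (𝓞 L))
    (hQ : Q.asIdeal = Q'.asIdeal.comap (algebraMap (𝓞 L) (𝓞 L'))) (a : 𝓞 F) (s : 𝓞 L) (t : 𝓞 L')
    (ht : t ^ 2 = algebraMap (𝓞 F) (𝓞 L') a)
    (hclose : Q.intValuation (algebraMap (𝓞 F) (𝓞 L) a - s ^ 2) < Q.intValuation (2 * s) ^ 2)
    (g : L' ≃ₐ[F] L') (hgQ : g • Q'.asIdeal = Q'.asIdeal) (hgt : g • t = t)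
    (hs : AlgEquiv.restrictNormalHom L g • s = s ∨ AlgEquiv.restrictNormalHom L g • s = -s) :
    AlgEquiv.restrictNormalHom L g • s = s := by
  rcases hs with hs | hs
  · exact hs
  exfalso
  have : Q'.asIdeal.LiesOver Q.asIdeal := ⟨hQ⟩
  set S : 𝓞 L' := algebraMap (𝓞 L) (𝓞 L') s with hS
  have hgS : g • S = -S := by
    have h1 : algebraMap (𝓞 L) (𝓞 L') (AlgEquiv.restrictNormalHom L g • s) = g • S := by
      apply NumberField.RingOfIntegers.ext
      exact AlgEquiv.restrictNormal_commutes g L (s : L)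
    rw [← h1, hs, map_neg]
  have he := Ideal.IsDedekindDomain.ramificationIdx'_ne_zero_of_liesOver Q'.asIdeal Q.ne_bot
  have h1 : Q'.intValuation (t - S) * Q'.intValuation (t + S) < Q'.intValuation (2 * S) ^ 2 := by
    rw [← map_mul]
    have h2 : (t - S) * (t + S) = algebraMap (𝓞 L) (𝓞 L') (algebraMap (𝓞 F) (𝓞 L) a - s ^ 2) := by
      rw [map_sub, ← IsScalarTower.algebraMap_apply, ← ht, map_pow]
      ring
    have h3 : (2 * S : 𝓞 L') = algebraMap (𝓞 L) (𝓞 L') (2 * s) := by
      rw [map_mul, map_ofNat]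
    rw [h2, h3, ← HeightOneSpectrum.intValuation_liesOver Q Q',
      ← HeightOneSpectrum.intValuation_liesOver Q Q', ← pow_mul, mul_comm _ 2, pow_mul]
    exact pow_lt_pow_left₀ hclose zero_le' he
  have h4 : Q'.intValuation (t + S) = Q'.intValuation (t - S) := by
    have h5 := intValuation_smul Q' hgQ (t - S)
    rw [smul_sub, hgt, hgS, sub_neg_eq_add] at h5
    exact h5
  have h6 : Q'.intValuation (2 * S) ≤ Q'.intValuation (t - S) := by
    have h7 : (2 * S : 𝓞 L') = (t + S) - (t - S) := by ring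
    rw [h7]
    refine (Valuation.map_sub _ _ _).trans ?_
    rw [h4, max_self]
  rw [h4, ← sq] at h1
  exact absurd h1 (not_lt.mpr (pow_le_pow_left₀ zero_le' h6 2))

end Pool.Agent.Helper2.LR
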