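import Pool.Agent.Helper2.LR.Sign
import Pool.Agent.Helper2.LR.Key
import Pool.Agent.Helper2.LR.Approx
import Pool.Agent.Helper93.DR.Frob2

/-!
# A totally positive element which is close to the local squares
-/

open scoped NumberField Pointwise
open IsDedekindDomain

namespace Pool.Agent.Helper2.LR

variable {F L k : Type*} [Field F] [NumberField F] [Field L] [NumberField L] [Algebra F L]
  [Field k] [IsGalois F L]

/-- The conjugate of a height one prime. -/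
noncomputable def conjSpec (P : HeightOneSpectrum (𝓞 L)) (σ : L ≃ₐ[F] L) :
    HeightOneSpectrum (𝓞 L) where
  asIdeal := σ • P.asIdeal
  isPrime := inferInstance
  ne_bot := by
    intro h
    have h1 : P.asIdeal = σ⁻¹ • (⊥ : Ideal (𝓞 L)) := by rw [← h, inv_smul_smul]
    exact P.ne_bot (by rw [h1, Ideal.pointwise_smul_def, Ideal.map_bot])

theorem exists_threshold (P : HeightOneSpectrum (𝓞 L)) {s : 𝓞 L} (hs : s ≠ 0) :
    ∃ n : ℕ, ∀ (σ : L ≃ₐ[F] L) (Q : HeightOneSpectrum (𝓞 L)), Q.asIdeal = σ • P.asIdeal →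
      ∀ y ∈ Q.asIdeal ^ n, Q.intValuation y < Q.intValuation (2 * (σ • s)) ^ 2 := by
  have : FiniteDimensional F L := Module.Finite.of_restrictScalars_finite ℚ F L
  have hF : Fintype (L ≃ₐ[F] L) := Fintype.ofFinite _
  have h1 : ∀ σ : L ≃ₐ[F] L, ∃ n : ℕ, ∀ y ∈ (conjSpec P σ).asIdeal ^ n,
      (conjSpec P σ).intValuation y < (conjSpec P σ).intValuation ((2 * (σ • s)) ^ 2) := by
    intro σ
    refine exists_pow_lt (conjSpec P σ) (pow_ne_zero 2 (mul_ne_zero two_ne_zero ?_))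
    intro h
    exact hs ((smul_eq_zero_iff_eq σ).mp h)
  choose n hn using h1
  refine ⟨Finset.univ.sup n, fun σ Q hQ y hy => ?_⟩
  have h2 : Q = conjSpec P σ := HeightOneSpectrum.ext hQ
  subst h2
  rw [← map_pow]
  exact hn σ y (Ideal.pow_le_pow_right (Finset.le_sup (Finset.mem_univ σ)) hy)

theorem decIm_smul (ρ : (L ≃ₐ[F] L) →* Matrix.GeneralLinearGroup (Fin 2) k) (P : Ideal (𝓞 L))
    (σ : L ≃ₐ[F] L) :
    decIm ρ (σ • P) = (decIm ρ P).map (MulAut.conj (ρ σ)).toMonoidHom := by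
  unfold decIm
  rw [MulAction.stabilizer_smul_eq_stabilizer_map_conj, Subgroup.map_map, Subgroup.map_map]
  congr 1
  ext1 x
  simp

theorem exists_good {m : ℕ} (hm : m ≠ 0)
    (ρ : (L ≃ₐ[F] L) →* Matrix.GeneralLinearGroup (Fin 2) k) :
    ∃ a : 𝓞 F, Pool.Agent.Helper93.DR.TotPos F (a : F) ∧
      ∀ Q : HeightOneSpectrum (𝓞 L), Bad m ρ Q.asIdeal →
        ∃ (s : 𝓞 L) (K : Subgroup (Matrix.GeneralLinearGroup (Fin 2) k)),
          Nat.card (decIm ρ Q.asIdeal) = 2 * Nat.card K ∧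
          (∀ d : L ≃ₐ[F] L, d • Q.asIdeal = Q.asIdeal →
            (d • s = s ∨ d • s = -s) ∧ (d • s = s → ρ d ∈ K)) ∧
          Q.intValuation (algebraMap (𝓞 F) (𝓞 L) a - s ^ 2) < Q.intValuation (2 * s) ^ 2 := by
  classical
  by_cases hno : ∀ Q : HeightOneSpectrum (𝓞 L), ¬ Bad m ρ Q.asIdeal
  · refine ⟨1, fun τ => ?_, fun Q hQ => absurd hQ (hno Q)⟩
    have h1 : ((1 : 𝓞 F) : F) = 1 := rfl
    rw [h1, map_one]
    exact one_pos
  push Not at hno
  obtain ⟨P₀, hP₀⟩ := hno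
  let B : HeightOneSpectrum (𝓞 F) → Prop := fun v => ∃ P : HeightOneSpectrum (𝓞 L),
    P.asIdeal.comap (algebraMap (𝓞 F) (𝓞 L)) = v.asIdeal ∧ Bad m ρ P.asIdeal
  have hdata : ∀ v : HeightOneSpectrum (𝓞 F), ∃ (P : HeightOneSpectrum (𝓞 L))
      (K : Subgroup (Matrix.GeneralLinearGroup (Fin 2) k)) (s : 𝓞 L), B v →
        P.asIdeal.comap (algebraMap (𝓞 F) (𝓞 L)) = v.asIdeal ∧ s ≠ 0 ∧
        Nat.card (decIm ρ P.asIdeal) = 2 * Nat.card K ∧
        ∀ d : L ≃ₐ[F] L, d • P.asIdeal = P.asIdeal →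
          (ρ d ∈ K → d • s = s) ∧ (ρ d ∉ K → d • s = -s) := by
    intro v
    by_cases hv : B v
    · obtain ⟨P, hP, hbad, K, hK⟩ := hv
      obtain ⟨s, hs, hd⟩ := exists_sign ρ P.asIdeal K hK
      refine ⟨P, K.map (decIm ρ P.asIdeal).subtype, s, fun _ => ⟨hP, hs, ?_, hd⟩⟩
      have h1 := K.card_mul_index
      rw [hK, mul_comm] at h1
      rw [Subgroup.card_subtype]
      exact h1.symm
    · exact ⟨P₀, ⊥, 0, fun h => absurd h hv⟩
  choose P K s hdat using hdata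
  let c : HeightOneSpectrum (𝓞 F) → ℕ := fun v =>
    Nat.card (MulAction.stabilizer (L ≃ₐ[F] L) (P v).asIdeal)
  have hc : ∀ v, c v ≠ 0 := by
    intro v
    have : FiniteDimensional F L := Module.Finite.of_restrictScalars_finite ℚ F L
    have : Finite (MulAction.stabilizer (L ≃ₐ[F] L) (P v).asIdeal) := inferInstance
    exact Nat.card_pos.ne'
  have hcast : ∀ v, ((c v : ℕ) : 𝓞 L) ≠ 0 := fun v => Nat.cast_ne_zero.mpr (hc v)
  have hn : ∀ v : HeightOneSpectrum (𝓞 F), ∃ n : ℕ, B v →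
      ∀ (σ : L ≃ₐ[F] L) (Q : HeightOneSpectrum (𝓞 L)), Q.asIdeal = σ • (P v).asIdeal →
      ∀ y ∈ Q.asIdeal ^ n, Q.intValuation y <
        Q.intValuation (2 * (σ • ((c v : 𝓞 L) * s v))) ^ 2 := by
    intro v
    by_cases hv : B v
    · obtain ⟨n, hn⟩ := exists_threshold (F := F) (P v)
        (mul_ne_zero (hcast v) (hdat v hv).2.1)
      exact ⟨n, fun _ => hn⟩
    · exact ⟨0, fun h => absurd h hv⟩
  choose n hn using hn
  have ha : ∀ v : HeightOneSpectrum (𝓞 F), ∃ a : 𝓞 F, B v →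
      algebraMap (𝓞 F) (𝓞 L) a - ((c v : 𝓞 L) * s v) ^ 2 ∈ (P v).asIdeal ^ n v := by
    intro v
    by_cases hv : B v
    · have hmax : (P v).asIdeal.IsMaximal := (P v).isMaximal
      obtain ⟨a, ha⟩ := exists_trace_approx (F := F) (P v).asIdeal (s v ^ 2) (fun d hd => by
        by_cases h : ρ d ∈ K v
        · rw [smul_pow', ((hdat v hv).2.2.2 d hd).1 h]
        · rw [smul_pow', ((hdat v hv).2.2.2 d hd).2 h, neg_sq]) (n v)
      refine ⟨(c v : 𝓞 F) * a, fun _ => ?_⟩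
      have h1 : algebraMap (𝓞 F) (𝓞 L) ((c v : 𝓞 F) * a) - ((c v : 𝓞 L) * s v) ^ 2 =
          (c v : 𝓞 L) * (algebraMap (𝓞 F) (𝓞 L) a - (c v : 𝓞 L) * s v ^ 2) := by
        rw [map_mul, map_natCast]
        ring
      rw [h1]
      exact Ideal.mul_mem_left _ _ ha
    · exact ⟨0, fun h => absurd h hv⟩
  choose a ha using ha
  -- the finite set of bad places
  obtain ⟨M₀, hM₀, hunr⟩ := Pool.Agent.Helper93.DR.exists_unramified F L
  have hB : ∀ v, B v → ((m * M₀ : ℕ) : 𝓞 F) ∈ v.asIdeal := by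
    rintro v ⟨P, hP, hbad, -⟩
    rw [← hP, Ideal.mem_comap, map_natCast, Nat.cast_mul]
    rcases hbad with h2 | ⟨g, hg, hne⟩
    · exact Ideal.mul_mem_right _ _ h2
    · refine Ideal.mul_mem_left _ _ ?_
      by_contra hM
      exact hne (by rw [hunr _ P.isMaximal hM g hg, map_one])
  have hfin : {v : HeightOneSpectrum (𝓞 F) | B v}.Finite := by
    refine (Ideal.finite_factors (R := 𝓞 F) (I := Ideal.span {((m * M₀ : ℕ) : 𝓞 F)})
      ?_).subset fun v hv => ?_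
    · rw [Ne, Ideal.zero_eq_bot, Ideal.span_singleton_eq_bot]
      exact Nat.cast_ne_zero.mpr (mul_ne_zero hm hM₀)
    · rw [Set.mem_ofPred_eq, Ideal.dvd_span_singleton]
      exact hB v hv
  obtain ⟨x, hx, hxv⟩ := exists_totPos hfin.toFinset a n
  refine ⟨x, hx, fun Q hQ => ?_⟩
  have hQmax : Q.asIdeal.IsMaximal := Q.isMaximal
  -- the place below
  let v : HeightOneSpectrum (𝓞 F) :=
    { asIdeal := Q.asIdeal.comap (algebraMap (𝓞 F) (𝓞 L))
      isPrime := inferInstance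
      ne_bot := by
        intro h
        exact Q.ne_bot (Ideal.eq_bot_of_comap_eq_bot h) }
  have hBv : B v := ⟨Q, rfl, hQ⟩
  obtain ⟨hPv, hs0, hK, hd⟩ := hdat v hBv
  have h1 : (P v).asIdeal.LiesOver v.asIdeal := ⟨hPv.symm⟩
  have h2 : Q.asIdeal.LiesOver v.asIdeal := ⟨rfl⟩
  obtain ⟨σ, hσ⟩ := Ideal.exists_smul_eq_of_isGaloisGroup v.asIdeal (P v).asIdeal Q.asIdeal
    (L ≃ₐ[F] L)
  refine ⟨σ • ((c v : 𝓞 L) * s v), (K v).map (MulAut.conj (ρ σ)).toMonoidHom, ?_, ?_, ?_⟩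
  · have h7 : ∀ H : Subgroup (Matrix.GeneralLinearGroup (Fin 2) k),
        Nat.card (H.map (MulAut.conj (ρ σ)).toMonoidHom) = Nat.card H := fun H =>
      (Nat.card_congr (H.equivMapOfInjective _ (MulAut.conj (ρ σ)).injective).toEquiv).symm
    rw [← hσ, decIm_smul, h7, h7]
    exact hK
  · intro d hdQ
    have hdP : (σ⁻¹ * d * σ) • (P v).asIdeal = (P v).asIdeal := by
      rw [mul_smul, mul_smul, hσ, hdQ, ← hσ, inv_smul_smul]
    have hdσ : d • σ • ((c v : 𝓞 L) * s v) =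
        σ • ((c v : 𝓞 L) * ((σ⁻¹ * d * σ) • s v)) := by
      have h7 : (σ⁻¹ * d * σ) • (c v : 𝓞 L) = (c v : 𝓞 L) :=
        map_natCast (MulSemiringAction.toRingHom (L ≃ₐ[F] L) (𝓞 L) (σ⁻¹ * d * σ)) (c v)
      have h12 : (c v : 𝓞 L) * ((σ⁻¹ * d * σ) • s v) =
          (σ⁻¹ * d * σ) • ((c v : 𝓞 L) * s v) := by rw [smul_mul', h7]
      rw [h12, smul_smul, smul_smul]
      congr 1
      group
    obtain ⟨h8, h9⟩ := hd _ hdP
    by_cases hmem : ρ (σ⁻¹ * d * σ) ∈ K v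
    · refine ⟨Or.inl ?_, fun _ => ⟨ρ (σ⁻¹ * d * σ), hmem, ?_⟩⟩
      · rw [hdσ, h8 hmem]
      · rw [MulEquiv.coe_toMonoidHom, MulAut.conj_apply, map_mul, map_mul, map_inv]
        group
    · have h10 : d • σ • ((c v : 𝓞 L) * s v) = -(σ • ((c v : 𝓞 L) * s v)) := by
        rw [hdσ, h9 hmem, mul_neg, smul_neg]
      refine ⟨Or.inr h10, fun h11 => ?_⟩
      exfalso
      rw [h11, self_eq_neg] at h10
      exact mul_ne_zero (hcast v) hs0 ((smul_eq_zero_iff_eq σ).mp h10)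
  · refine hn v hBv σ Q hσ.symm _ ?_
    have h3 : algebraMap (𝓞 F) (𝓞 L) x - (σ • ((c v : 𝓞 L) * s v)) ^ 2 =
        algebraMap (𝓞 F) (𝓞 L) (x - a v) +
          σ • (algebraMap (𝓞 F) (𝓞 L) (a v) - ((c v : 𝓞 L) * s v) ^ 2) := by
      rw [smul_sub, smul_pow', map_sub]
      have h4 : σ • algebraMap (𝓞 F) (𝓞 L) (a v) = algebraMap (𝓞 F) (𝓞 L) (a v) := by
        apply NumberField.RingOfIntegers.ext
        exact σ.commutes ((a v : 𝓞 F) : F)
      rw [h4]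
      ring
    rw [h3]
    refine Ideal.add_mem _ ?_ ?_
    · have h5 := hxv v (hfin.mem_toFinset.mpr hBv)
      have h6 : (v.asIdeal ^ n v).map (algebraMap (𝓞 F) (𝓞 L)) ≤ Q.asIdeal ^ n v := by
        rw [Ideal.map_pow]
        exact Ideal.pow_right_mono (Ideal.map_comap_le) _
      exact h6 (Ideal.mem_map_of_mem _ h5)
    · exact smul_mem_powK hσ (ha v hBv)

end Pool.Agent.Helper2.LR
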