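import Pool.Agent.Helper2.LR.Defs

open scoped NumberField Pointwise

namespace Pool.Agent.Helper2.LR

section

variable {F L L' : Type*} [Field F] [NumberField F] [Field L] [NumberField L] [Field L']
  [NumberField L'] [Algebra F L] [Algebra F L'] [Algebra L L'] [IsScalarTower F L L']
  [IsGalois F L] [IsGalois F L']

theorem algebraMap_restrict (g : L' ≃ₐ[F] L') (x : 𝓞 L) :
    algebraMap (𝓞 L) (𝓞 L') (AlgEquiv.restrictNormalHom L g • x) =
      g • algebraMap (𝓞 L) (𝓞 L') x := by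
  apply NumberField.RingOfIntegers.ext
  exact AlgEquiv.restrictNormal_commutes g L (x : L)

/-- The restriction of an element of the decomposition group of `Q'` lies in the decomposition
group of the ideal below. -/
theorem restrict_mem (Q' : Ideal (𝓞 L')) {g : L' ≃ₐ[F] L'} (hg : g • Q' = Q') :
    AlgEquiv.restrictNormalHom L g • Q'.comap (algebraMap (𝓞 L) (𝓞 L')) =
      Q'.comap (algebraMap (𝓞 L) (𝓞 L')) := by
  ext x
  rw [Ideal.mem_pointwise_smul_iff_inv_smul_mem, Ideal.mem_comap, Ideal.mem_comap, ← map_inv,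
    algebraMap_restrict, ← Ideal.mem_pointwise_smul_iff_inv_smul_mem, hg]

/-- Elements of decomposition groups can be lifted. -/
theorem exists_lift (Q' : Ideal (𝓞 L')) [Q'.IsMaximal] {h : L ≃ₐ[F] L}
    (hh : h • Q'.comap (algebraMap (𝓞 L) (𝓞 L')) = Q'.comap (algebraMap (𝓞 L) (𝓞 L'))) :
    ∃ g : L' ≃ₐ[F] L', g • Q' = Q' ∧ AlgEquiv.restrictNormalHom L g = h := by
  obtain ⟨g₀, rfl⟩ := AlgEquiv.restrictNormalHom_surjective (F := F) (K₁ := L) L' h
  have hQ' : Q'.IsPrime := Ideal.IsMaximal.isPrime ‹_›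
  set Q := Q'.comap (algebraMap (𝓞 L) (𝓞 L')) with hQ
  have h1 : Q'.LiesOver Q := ⟨rfl⟩
  have h2 : (g₀ • Q').LiesOver Q := by
    constructor
    ext x
    change x ∈ Q ↔ algebraMap (𝓞 L) (𝓞 L') x ∈ g₀ • Q'
    rw [Ideal.mem_pointwise_smul_iff_inv_smul_mem, ← algebraMap_restrict, map_inv]
    change x ∈ Q ↔ (AlgEquiv.restrictNormalHom L g₀)⁻¹ • x ∈ Q
    rw [← Ideal.mem_pointwise_smul_iff_inv_smul_mem, hh]
  have hG : IsGalois L L' := IsGalois.tower_top_of_isGalois F L L'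
  obtain ⟨τ, hτ⟩ := Ideal.exists_smul_eq_of_isGaloisGroup Q (g₀ • Q') Q' (L' ≃ₐ[L] L')
  refine ⟨AlgEquiv.restrictScalarsHom F τ * g₀, ?_, ?_⟩
  · rw [mul_smul]
    exact hτ
  · rw [map_mul]
    have h3 : AlgEquiv.restrictNormalHom L (AlgEquiv.restrictScalarsHom F τ : L' ≃ₐ[F] L') = 1 := by
      ext x
      apply (algebraMap L L').injective
      have h4 := AlgEquiv.restrictNormal_commutes
        (AlgEquiv.restrictScalarsHom F τ : L' ≃ₐ[F] L') L x
      refine h4.trans ?_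
      exact τ.commutes x
    rw [h3, one_mul]

/-- The inertia group of `Q'` restricts into the inertia group of the ideal below. -/
theorem restrict_inertia (Q' : Ideal (𝓞 L')) {g : L' ≃ₐ[F] L'} (hg : ∀ x : 𝓞 L', g • x - x ∈ Q')
    (x : 𝓞 L) : AlgEquiv.restrictNormalHom L g • x - x ∈ Q'.comap (algebraMap (𝓞 L) (𝓞 L')) := by
  rw [Ideal.mem_comap, map_sub, algebraMap_restrict]
  exact hg _

end

end Pool.Agent.Helper2.LR
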