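import Pool.Agent.Helper2.LR.Defs

/-!
# Local images of odd order
-/

namespace Pool.Agent.Helper2.LR

/-- A finite commutative group of even order has a subgroup of index two. -/
theorem hasIdxTwo_of_comm {G : Type*} [CommGroup G] [Finite G] (h : Even (Nat.card G)) :
    HasIdxTwo G := by
  classical
  have h2 : Fact (Nat.Prime 2) := ⟨Nat.prime_two⟩
  obtain ⟨g, hg⟩ := exists_prime_orderOf_dvd_card' (G := G) 2 h.two_dvd
  have hni : ¬ Function.Injective (powMonoidHom 2 : G →* G) := by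
    intro hi
    have h3 : (powMonoidHom 2 : G →* G) g = (powMonoidHom 2 : G →* G) 1 := by
      simp only [powMonoidHom_apply, one_pow]
      rw [← hg]
      exact pow_orderOf_eq_one g
    have h4 := hi h3
    rw [h4, orderOf_one] at hg
    omega
  have hns : ¬ Function.Surjective (powMonoidHom 2 : G →* G) := fun hs =>
    hni (Finite.injective_iff_surjective.2 hs)
  obtain ⟨R, hR⟩ : ∃ R : Subgroup G, R = (powMonoidHom 2 : G →* G).range := ⟨_, rfl⟩
  have hRtop : R ≠ ⊤ := by
    rw [hR]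
    intro h3
    exact hns (MonoidHom.range_eq_top.1 h3)
  have hsq : ∀ x : G ⧸ R, x ^ 2 = 1 := by
    intro x
    induction x using QuotientGroup.induction_on with
    | H x =>
      rw [← QuotientGroup.mk_pow, QuotientGroup.eq_one_iff, hR]
      exact ⟨x, rfl⟩
  have hp : IsPGroup 2 (G ⧸ R) := fun x => ⟨1, by rw [pow_one]; exact hsq x⟩
  obtain ⟨n, hn⟩ := IsPGroup.iff_card.1 hp
  have hn0 : n ≠ 0 := by
    rintro rfl
    rw [pow_zero] at hn
    apply hRtop
    rw [← Subgroup.index_eq_one, Subgroup.index]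
    exact hn
  obtain ⟨K, hK⟩ := Sylow.exists_subgroup_card_pow_prime (G := G ⧸ R) 2 (n := n - 1) (by
    rw [hn]
    exact pow_dvd_pow 2 (Nat.sub_le n 1))
  have hKi : K.index = 2 := by
    have h3 := K.card_mul_index
    rw [hK, hn] at h3
    have h4 : 2 ^ n = 2 ^ (n - 1) * 2 := by
      rw [← pow_succ]
      congr 1
      omega
    rw [h4] at h3
    exact Nat.eq_of_mul_eq_mul_left (by positivity) h3
  refine ⟨K.comap (QuotientGroup.mk' R), ?_⟩
  rw [Subgroup.index_comap_of_surjective _ (QuotientGroup.mk'_surjective R), hKi]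

/-! ### Matrices with a common eigenvector -/

section mat

variable {k : Type*} [Field k]

/-- the linear form whose kernel is the line of `v` -/
def oddLam (v : Fin 2 → k) : Fin 2 → k := ![-(v 1), v 0]

/-- the nilpotent matrix with kernel and image the line of `v` -/
def oddN (v : Fin 2 → k) : Matrix (Fin 2) (Fin 2) k := Matrix.vecMulVec v (oddLam v)

theorem odd_row (v : Fin 2 → k) (h : Matrix (Fin 2) (Fin 2) k) (c : k)
    (hc : Matrix.mulVec h v = c • v) :
    ∃ c' : k, Matrix.vecMul (oddLam v) h = c' • oddLam v := by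
  have h0 := congrFun hc 0
  have h1 := congrFun hc 1
  simp only [Matrix.mulVec, dotProduct, Fin.sum_univ_two, Pi.smul_apply, smul_eq_mul] at h0 h1
  refine ⟨h 0 0 + h 1 1 - c, ?_⟩
  funext i
  fin_cases i
  · simp only [oddLam, Matrix.vecMul, dotProduct, Fin.sum_univ_two, Pi.smul_apply, smul_eq_mul,
      Fin.zero_eta, Matrix.cons_val_zero, Matrix.cons_val_one]
    linear_combination h1
  · simp only [oddLam, Matrix.vecMul, dotProduct, Fin.sum_univ_two, Pi.smul_apply, smul_eq_mul,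
      Fin.mk_one, Matrix.cons_val_zero, Matrix.cons_val_one]
    linear_combination -h0

theorem odd_mat (v : Fin 2 → k) (hv : v ≠ 0) (m : Matrix (Fin 2) (Fin 2) k)
    (h1 : Matrix.mulVec m v = 0) (h2 : Matrix.vecMul (oddLam v) m = 0) :
    ∃ c : k, m = c • oddN v := by
  have e0 := congrFun h1 0
  have e1 := congrFun h1 1
  have f0 := congrFun h2 0
  have f1 := congrFun h2 1
  simp only [oddLam, Matrix.mulVec, Matrix.vecMul, dotProduct, Fin.sum_univ_two, Pi.zero_apply,
    Matrix.cons_val_zero, Matrix.cons_val_one] at e0 e1 f0 f1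
  by_cases hv0 : v 0 = 0
  · have hv1 : v 1 ≠ 0 := by
      intro h
      apply hv
      funext i
      fin_cases i
      · exact hv0
      · exact h
    rw [hv0] at e0 e1 f0 f1
    have g0 : m 0 1 = 0 := by
      have : m 0 1 * v 1 = 0 := by linear_combination e0
      exact (mul_eq_zero.1 this).resolve_right hv1
    have g1 : m 1 1 = 0 := by
      have : m 1 1 * v 1 = 0 := by linear_combination e1
      exact (mul_eq_zero.1 this).resolve_right hv1
    have g2 : m 0 0 = 0 := by
      have : m 0 0 * v 1 = 0 := by linear_combination -f0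
      exact (mul_eq_zero.1 this).resolve_right hv1
    refine ⟨-(m 1 0) / (v 1 * v 1), ?_⟩
    ext i j
    fin_cases i <;> fin_cases j <;>
      simp [oddN, oddLam, Matrix.vecMulVec_apply, hv0, g0, g1, g2]
    field_simp
  · refine ⟨m 0 1 / (v 0 * v 0), ?_⟩
    ext i j
    fin_cases i <;> fin_cases j
    · simp only [oddN, oddLam, Matrix.vecMulVec_apply, Matrix.smul_apply, smul_eq_mul,
        Fin.zero_eta, Matrix.cons_val_zero]
      field_simp
      linear_combination e0
    · simp only [oddN, oddLam, Matrix.vecMulVec_apply, Matrix.smul_apply, smul_eq_mul,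
        Fin.zero_eta, Fin.mk_one, Matrix.cons_val_one, Matrix.cons_val_fin_one]
      field_simp
    · simp only [oddN, oddLam, Matrix.vecMulVec_apply, Matrix.smul_apply, smul_eq_mul,
        Fin.zero_eta, Fin.mk_one, Matrix.cons_val_zero]
      field_simp
      linear_combination v 0 * f0 + v 1 * e0
    · simp only [oddN, oddLam, Matrix.vecMulVec_apply, Matrix.smul_apply, smul_eq_mul,
        Fin.mk_one, Matrix.cons_val_one, Matrix.cons_val_fin_one]
      field_simp
      linear_combination f1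

theorem oddN_ne (v : Fin 2 → k) (hv : v ≠ 0) : oddN v ≠ 0 := by
  intro h
  apply hv
  have h0 := congrFun (congrFun h 0) 1
  have h1 := congrFun (congrFun h 1) 0
  simp only [oddN, oddLam, Matrix.vecMulVec_apply, Matrix.zero_apply, Matrix.cons_val_zero,
    Matrix.cons_val_one] at h0 h1
  funext i
  fin_cases i
  · exact mul_self_eq_zero.1 h0
  · have h2 : v 1 * v 1 = 0 := by linear_combination -h1
    exact mul_self_eq_zero.1 h2

theorem mul_oddN (v : Fin 2 → k) (h : Matrix (Fin 2) (Fin 2) k) (c : k)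
    (hc : Matrix.mulVec h v = c • v) : h * oddN v = c • oddN v := by
  unfold oddN
  rw [Matrix.mul_vecMulVec, hc, Matrix.smul_vecMulVec]

theorem oddN_mul (v : Fin 2 → k) (h : Matrix (Fin 2) (Fin 2) k) (c : k)
    (hc : Matrix.vecMul (oddLam v) h = c • oddLam v) : oddN v * h = c • oddN v := by
  unfold oddN
  rw [Matrix.vecMulVec_mul, hc, Matrix.vecMulVec_smul]

theorem oddN_sq (v : Fin 2 → k) : oddN v * oddN v = 0 := by
  ext i j
  simp only [Matrix.mul_apply, Fin.sum_univ_two, oddN, oddLam, Matrix.vecMulVec_apply,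
    Matrix.cons_val_zero, Matrix.cons_val_one, Matrix.zero_apply]
  ring

theorem odd_sq_one [CharP k 2] {c : k} (h : c * c = 1) : c = 1 := by
  have h2 : (2 : k) = 0 := by exact_mod_cast CharP.cast_eq_zero k 2
  have h3 : (c - 1) * (c - 1) = 0 := by linear_combination h - (c - 1) * h2
  exact sub_eq_zero.1 (mul_self_eq_zero.1 h3)

/-- an involution with eigenvector `v` is `1 + c N` -/
theorem odd_invol [CharP k 2] (v : Fin 2 → k) (hv : v ≠ 0) (h : Matrix (Fin 2) (Fin 2) k) (c : k)
    (hc : Matrix.mulVec h v = c • v) (hh : h * h = 1) : ∃ e : k, h = 1 + e • oddN v := by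
  obtain ⟨c', hc'⟩ := odd_row v h c hc
  have hlam : oddLam v ≠ 0 := by
    intro h1
    apply hv
    have h2 := congrFun h1 0
    have h3 := congrFun h1 1
    simp only [oddLam, Matrix.cons_val_zero, Matrix.cons_val_one, Pi.zero_apply] at h2 h3
    funext i
    fin_cases i
    · exact h3
    · exact neg_eq_zero.1 h2
  have hc1 : c = 1 := by
    apply odd_sq_one
    have h1 : Matrix.mulVec (h * h) v = (c * c) • v := by
      rw [← Matrix.mulVec_mulVec, hc, Matrix.mulVec_smul, hc, smul_smul]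
    rw [hh, Matrix.one_mulVec] at h1
    obtain ⟨i, hi⟩ := Function.ne_iff.1 hv
    have h2 := congrFun h1 i
    rw [Pi.smul_apply, smul_eq_mul] at h2
    have hi' : v i ≠ 0 := hi
    have h3 : (c * c - 1) * v i = 0 := by linear_combination -h2
    exact sub_eq_zero.1 ((mul_eq_zero.1 h3).resolve_right hi')
  have hc2 : c' = 1 := by
    apply odd_sq_one
    have h1 : Matrix.vecMul (oddLam v) (h * h) = (c' * c') • oddLam v := by
      rw [← Matrix.vecMul_vecMul, hc', Matrix.smul_vecMul, hc', smul_smul]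
    rw [hh, Matrix.vecMul_one] at h1
    obtain ⟨i, hi⟩ := Function.ne_iff.1 hlam
    have h2 := congrFun h1 i
    rw [Pi.smul_apply, smul_eq_mul] at h2
    have hi' : oddLam v i ≠ 0 := hi
    have h3 : (c' * c' - 1) * oddLam v i = 0 := by linear_combination -h2
    exact sub_eq_zero.1 ((mul_eq_zero.1 h3).resolve_right hi')
  subst hc1 hc2
  obtain ⟨e, he⟩ := odd_mat v hv (h - 1)
    (by rw [Matrix.sub_mulVec, hc, Matrix.one_mulVec, one_smul, sub_self])
    (by rw [Matrix.vecMul_sub, hc', Matrix.vecMul_one, one_smul, sub_self])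
  exact ⟨e, by rw [← he]; abel⟩

end mat

/-- a homomorphism whose kernel contains the kernel of a homomorphism to a cyclic group has cyclic
image -/
theorem odd_cyc {A B C : Type*} [Group A] [Group B] [Group C] [IsCyclic C] (f : A →* C)
    (r : A →* B) (h : ∀ a, f a = 1 → r a = 1) : ∃ a0 : A, ∀ a, ∃ n : ℤ, r a = r a0 ^ n := by
  obtain ⟨⟨g, a0, ha0⟩, hg⟩ := (inferInstance : IsCyclic f.range)
  refine ⟨a0, fun a => ?_⟩
  obtain ⟨n, hn⟩ := hg ⟨f a, a, rfl⟩
  have h1 : g ^ n = f a := congrArg Subtype.val hn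
  refine ⟨n, ?_⟩
  have h2 : f (a * (a0 ^ n)⁻¹) = 1 := by
    rw [map_mul, map_inv, map_zpow, ha0, h1, mul_inv_cancel]
  have h3 := h _ h2
  rw [map_mul, map_inv, map_zpow] at h3
  exact mul_inv_eq_one.1 h3

/-- The group theory of the images of decomposition groups at places of odd residue
characteristic `ℓ`: `I` is the inertia group, the kernel of `θ` the wild inertia group. -/
theorem odd_card {k : Type*} [Field k] [CharP k 2] {D C : Type*} [Group D] [Finite D]
    [CommGroup C] [IsCyclic C] (I : Subgroup D) [I.Normal] (hc : IsCyclic (D ⧸ I)) (θ : I →* C)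
    {ℓ : ℕ} [Fact ℓ.Prime] (hℓ : ℓ ≠ 2) (hθ : IsPGroup ℓ θ.ker)
    (ρ : D →* Matrix.GeneralLinearGroup (Fin 2) k) (hline : FixesLine ρ.range)
    (h2 : ¬ HasIdxTwo ρ.range) : Odd (Nat.card ρ.range) := by
  classical
  rw [← Nat.not_even_iff_odd]
  intro heven
  obtain ⟨v, hv, hfix⟩ := hline
  have hfin : Finite ρ.range := Finite.of_surjective ρ.rangeRestrict ρ.rangeRestrict_surjective
  -- involutions
  have hinv : ∀ d : D, ρ d * ρ d = 1 → ∃ e : k, (ρ d : Matrix (Fin 2) (Fin 2) k) =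
      1 + e • oddN v := by
    intro d hd
    obtain ⟨c, hcv⟩ := hfix (ρ d) ⟨d, rfl⟩
    refine odd_invol v hv _ c hcv ?_
    rw [← Units.val_mul, hd, Units.val_one]
  have hmul : ∀ d d' : D, ρ d * ρ d = 1 → ρ d' * ρ d' = 1 →
      ρ (d * d') * ρ (d * d') = 1 := by
    intro d d' hd hd'
    obtain ⟨e, he⟩ := hinv d hd
    obtain ⟨e', he'⟩ := hinv d' hd'
    have hcomm : ρ d * ρ d' = ρ d' * ρ d := by
      apply Units.ext
      rw [Units.val_mul, Units.val_mul, he, he']
      simp only [mul_add, add_mul, one_mul, mul_one, smul_mul_smul_comm, oddN_sq, smul_zero,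
        add_zero]
      abel
    rw [map_mul]
    calc ρ d * ρ d' * (ρ d * ρ d') = ρ d * (ρ d' * ρ d) * ρ d' := by group
      _ = ρ d * (ρ d * ρ d') * ρ d' := by rw [hcomm]
      _ = (ρ d * ρ d) * (ρ d' * ρ d') := by group
      _ = 1 := by rw [hd, hd', one_mul]
  let DU : Subgroup D :=
    { carrier := {d | ρ d * ρ d = 1}
      mul_mem' := fun {a b} ha hb => hmul a b ha hb
      one_mem' := by
        show ρ 1 * ρ 1 = 1
        rw [map_one, one_mul]
      inv_mem' := fun {a} ha => by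
        have ha' : ρ a * ρ a = 1 := ha
        show ρ a⁻¹ * ρ a⁻¹ = 1
        rw [map_inv, ← mul_inv_rev, ha', inv_one] }
  have hDU : ∀ d, d ∈ DU ↔ ρ d * ρ d = 1 := fun d => Iff.rfl
  have hDUconj : ∀ d ∈ DU, ∀ g, g * d * g⁻¹ ∈ DU := by
    intro d hd g
    rw [hDU] at hd ⊢
    rw [map_mul, map_mul, map_inv]
    calc ρ g * ρ d * (ρ g)⁻¹ * (ρ g * ρ d * (ρ g)⁻¹) = ρ g * (ρ d * ρ d) * (ρ g)⁻¹ := by group
      _ = 1 := by rw [hd, mul_one, mul_inv_cancel]
  -- an element of order two
  have hF : Fact (Nat.Prime 2) := ⟨Nat.prime_two⟩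
  obtain ⟨⟨_, d1, rfl⟩, hd1⟩ := exists_prime_orderOf_dvd_card' (G := ρ.range) 2 heven.two_dvd
  have hd1' : ρ d1 * ρ d1 = 1 := by
    have h3 := pow_orderOf_eq_one (⟨ρ d1, d1, rfl⟩ : ρ.range)
    rw [hd1, pow_two] at h3
    exact congrArg Subtype.val h3
  have hd1n : ρ d1 ≠ 1 := by
    intro h3
    have h4 : (⟨ρ d1, d1, rfl⟩ : ρ.range) = 1 := Subtype.ext h3
    rw [h4, orderOf_one] at hd1
    omega
  -- powers of an involution
  have hpow : ∀ (u : Matrix.GeneralLinearGroup (Fin 2) k) (n : ℤ), u * u = 1 →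
      u ^ n = 1 ∨ u ^ n = u := by
    intro u n hu
    rcases Int.even_or_odd n with ⟨m, rfl⟩ | ⟨m, rfl⟩
    · left
      rw [← two_mul, zpow_mul, zpow_two, hu, one_zpow]
    · right
      rw [zpow_add, zpow_mul, zpow_two, hu, one_zpow, one_mul, zpow_one]
  -- a central involution
  obtain ⟨u, hu, hun, hucen⟩ : ∃ u : D, ρ u * ρ u = 1 ∧ ρ u ≠ 1 ∧
      ∀ g, ρ g * ρ u = ρ u * ρ g := by
    have key : ∀ T : Subgroup D, (∀ d ∈ T, ∀ g, g * d * g⁻¹ ∈ T) → (∃ d ∈ T, ρ d ≠ 1) →
        (∃ u ∈ T, ρ u * ρ u = 1 ∧ ∀ d ∈ T, ∃ n : ℤ, ρ d = ρ u ^ n) →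
        ∃ u : D, ρ u * ρ u = 1 ∧ ρ u ≠ 1 ∧ ∀ g, ρ g * ρ u = ρ u * ρ g := by
      rintro T hT ⟨d, hdT, hd⟩ ⟨u, huT, hu, hall⟩
      have hu1 : ρ u ≠ 1 := by
        intro h3
        obtain ⟨n, hn⟩ := hall d hdT
        rw [h3, one_zpow] at hn
        exact hd hn
      refine ⟨u, hu, hu1, fun g => ?_⟩
      obtain ⟨n, hn⟩ := hall _ (hT u huT g)
      rw [map_mul, map_mul, map_inv] at hn
      rcases hpow (ρ u) n hu with h3 | h3
      · rw [h3] at hn
        exfalso
        apply hu1
        have h4 : ρ g * ρ u = ρ g := by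
          rw [mul_inv_eq_one] at hn
          exact hn
        exact mul_eq_left.1 h4
      · rw [h3] at hn
        exact mul_inv_eq_iff_eq_mul.1 hn
    by_cases hA : ∃ d ∈ DU ⊓ I, ρ d ≠ 1
    · -- the inertia group contains involutions
      refine key (DU ⊓ I) (fun d hd g => ⟨hDUconj d hd.1 g, ‹I.Normal›.conj_mem d hd.2 g⟩) hA ?_
      obtain ⟨a0, ha0⟩ := odd_cyc (θ.comp (Subgroup.inclusion (inf_le_right : DU ⊓ I ≤ I)))
        (ρ.comp (DU ⊓ I).subtype) (by
          rintro ⟨a, haU, haI⟩ hf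
          show ρ a = 1
          have h3 : (⟨a, haI⟩ : I) ∈ θ.ker := hf
          obtain ⟨m, hm⟩ := hθ ⟨⟨a, haI⟩, h3⟩
          have h4 : a ^ ℓ ^ m = 1 := congrArg (fun z => ((z : θ.ker) : I).1) hm
          have h5 : (ρ a) ^ ℓ ^ m = 1 := by rw [← map_pow, h4, map_one]
          have h6 : (ρ a) ^ 2 = 1 := by
            rw [pow_two]
            exact haU
          have h7 : Nat.Coprime (ℓ ^ m) 2 :=
            Nat.Coprime.pow_left m ((Nat.coprime_primes (Fact.out) Nat.prime_two).2 hℓ)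
          have h8 := Nat.dvd_gcd (orderOf_dvd_of_pow_eq_one h5) (orderOf_dvd_of_pow_eq_one h6)
          rw [h7] at h8
          exact orderOf_eq_one_iff.1 (Nat.dvd_one.1 h8))
      exact ⟨a0, a0.2, a0.2.1, fun d hd => ha0 ⟨d, hd⟩⟩
    · push Not at hA
      refine key DU hDUconj ⟨d1, hd1', hd1n⟩ ?_
      obtain ⟨a0, ha0⟩ := odd_cyc ((QuotientGroup.mk' I).comp DU.subtype)
        (ρ.comp DU.subtype) (by
          rintro ⟨a, haU⟩ hf
          refine hA a ⟨haU, ?_⟩
          exact (QuotientGroup.eq_one_iff a).1 hf)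
      exact ⟨a0, a0.2, a0.2, fun d hd => ha0 ⟨d, hd⟩⟩
  -- the image is commutative
  obtain ⟨e, he⟩ := hinv u hu
  have he0 : e ≠ 0 := by
    rintro rfl
    apply hun
    apply Units.ext
    rw [he, zero_smul, add_zero, Units.val_one]
  have hform : ∀ g : D, ∃ a b : k, (ρ g : Matrix (Fin 2) (Fin 2) k) = a • 1 + b • oddN v := by
    intro g
    obtain ⟨c1, hc1⟩ := hfix (ρ g) ⟨g, rfl⟩
    obtain ⟨c2, hc2⟩ := odd_row v _ c1 hc1
    have h3 := congrArg Units.val (hucen g)
    rw [Units.val_mul, Units.val_mul, he, mul_add, add_mul, mul_one, one_mul, mul_smul_comm,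
      smul_mul_assoc, mul_oddN v _ c1 hc1, oddN_mul v _ c2 hc2, smul_smul, smul_smul] at h3
    have h4 : (e * c1) • oddN v = (e * c2) • oddN v := add_left_cancel h3
    have h5 : (e * c1 - e * c2) • oddN v = 0 := by rw [sub_smul, h4, sub_self]
    have h6 : e * c1 - e * c2 = 0 := (smul_eq_zero.1 h5).resolve_right (oddN_ne v hv)
    have h7 : c1 = c2 := by
      rw [← mul_sub] at h6
      exact sub_eq_zero.1 ((mul_eq_zero.1 h6).resolve_left he0)
    subst h7
    obtain ⟨b, hb⟩ := odd_mat v hv ((ρ g : Matrix (Fin 2) (Fin 2) k) - c1 • 1)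
      (by rw [Matrix.sub_mulVec, hc1, Matrix.smul_mulVec, Matrix.one_mulVec, sub_self])
      (by rw [Matrix.vecMul_sub, hc2, Matrix.vecMul_smul, Matrix.vecMul_one, sub_self])
    exact ⟨c1, b, by rw [← hb]; abel⟩
  have hcomm : ∀ x y : ρ.range, x * y = y * x := by
    rintro ⟨_, g, rfl⟩ ⟨_, g', rfl⟩
    obtain ⟨a, b, h3⟩ := hform g
    obtain ⟨a', b', h4⟩ := hform g'
    apply Subtype.ext
    apply Units.ext
    show (ρ g : Matrix (Fin 2) (Fin 2) k) * (ρ g' : Matrix (Fin 2) (Fin 2) k) =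
      (ρ g' : Matrix (Fin 2) (Fin 2) k) * (ρ g : Matrix (Fin 2) (Fin 2) k)
    rw [h3, h4]
    simp only [mul_add, add_mul, smul_mul_smul_comm, oddN_sq, smul_zero, add_zero, one_mul,
      mul_one]
    rw [mul_comm a' a, mul_comm b' a, mul_comm a' b]
    abel
  let inst : CommGroup ρ.range := { (inferInstance : Group ρ.range) with mul_comm := hcomm }
  exact h2 (@hasIdxTwo_of_comm ρ.range inst hfin heven)

end Pool.Agent.Helper2.LR
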