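import Pool.Agent.Helper2.LR.Defs

/-!
# The tame character of the inertia group
-/

open scoped NumberField Pointwise

namespace Pool.Agent.Helper2.LR

section general

variable {O I : Type*} [CommRing O] [Group I] [MulSemiringAction I O] (Q : Ideal O)

/-- The powers of a stable ideal are stable. -/
theorem smul_mem_pow {s : I} (hs : ∀ x ∈ Q, s • x ∈ Q) (n : ℕ) {x : O} (hx : x ∈ Q ^ n) :
    s • x ∈ Q ^ n := by
  have h1 : Ideal.map (MulSemiringAction.toRingHom I O s) Q ≤ Q :=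
    Ideal.map_le_iff_le_comap.2 fun y hy => hs y hy
  have h2 : Ideal.map (MulSemiringAction.toRingHom I O s) (Q ^ n) ≤ Q ^ n := by
    rw [Ideal.map_pow]
    exact Ideal.pow_right_mono h1 n
  exact h2 (Ideal.mem_map_of_mem (MulSemiringAction.toRingHom I O s) hx)

/-- An element acting trivially modulo `Q` stabilises `Q`. -/
theorem smul_mem_of_inertia {s : I} (hs : ∀ x : O, s • x - x ∈ Q) {x : O} (hx : x ∈ Q) :
    s • x ∈ Q := by
  have := Q.add_mem (hs x) hx
  rwa [sub_add_cancel] at this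

/-- The product rule. -/
theorem smul_mul_sub (s : I) (a b : O) :
    s • (a * b) - a * b = (s • a - a) * s • b + a * (s • b - b) := by
  rw [smul_mul']
  ring

/-- If `s` acts trivially on `Q / Q²` and on `O / Q²` then also on `Q^m / Q^(m+1)`. -/
theorem smul_sub_mem_pow {s : I} (hs : ∀ x : O, s • x - x ∈ Q ^ 2) (m : ℕ) :
    ∀ y ∈ Q ^ m, s • y - y ∈ Q ^ (m + 1) := by
  have hs1 : ∀ x : O, s • x - x ∈ Q := fun x =>
    (Ideal.pow_le_self two_ne_zero : Q ^ 2 ≤ Q) (hs x)
  induction m with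
  | zero =>
    intro y _
    simpa using hs1 y
  | succ m ih =>
    intro y hy
    rw [pow_succ] at hy
    refine Submodule.mul_induction_on hy ?_ ?_
    · intro a ha b hb
      rw [smul_mul_sub]
      refine Ideal.add_mem _ ?_ ?_
      · rw [pow_succ (n := m + 1)]
        exact Ideal.mul_mem_mul (ih a ha) (smul_mem_of_inertia Q hs1 hb)
      · rw [show m + 1 + 1 = m + 2 from rfl, pow_add]
        exact Ideal.mul_mem_mul ha (hs b)
    · intro a b ha hb
      rw [smul_add, add_sub_add_comm]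
      exact Ideal.add_mem _ ha hb

/-- The powers of an element of a higher ramification group. -/
theorem pow_smul_sub_mem {s : I} {n : ℕ} (hn : 1 ≤ n) (hs : ∀ x : O, s • x - x ∈ Q ^ (n + 1))
    (x : O) (j : ℕ) : s ^ j • x - x - (j : O) * (s • x - x) ∈ Q ^ (n + 2) := by
  have hs2 : ∀ x : O, s • x - x ∈ Q ^ 2 := fun x => Ideal.pow_le_pow_right (by omega) (hs x)
  have hs1 : ∀ x : O, s • x - x ∈ Q := fun x =>
    (Ideal.pow_le_self two_ne_zero : Q ^ 2 ≤ Q) (hs2 x)
  induction j with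
  | zero => simp
  | succ j ih =>
    have h1 : s • (s • x - x) - (s • x - x) ∈ Q ^ (n + 2) :=
      smul_sub_mem_pow Q hs2 (n + 1) _ (hs x)
    have h2 : s • (s ^ j • x - x - (j : O) * (s • x - x)) ∈ Q ^ (n + 2) :=
      smul_mem_pow Q (fun y hy => smul_mem_of_inertia Q hs1 hy) _ ih
    have h3 : s ^ (j + 1) • x = s • (s ^ j • x) := by rw [pow_succ', mul_smul]
    have h4 : s • (j : O) = (j : O) := by
      rw [← MulSemiringAction.toRingHom_apply, map_natCast]
    have h5 := Ideal.add_mem _ h2 (Ideal.mul_mem_left _ (j : O) h1)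
    rw [smul_sub, smul_sub, smul_mul', h4] at h5
    rw [h3]
    refine (congrArg (fun z => z ∈ Q ^ (n + 2)) ?_).mp h5
    push_cast
    ring

/-- Raising to the power `ℓ` goes up in the filtration. -/
theorem pow_prime_smul_sub_mem {s : I} {n : ℕ} (hn : 1 ≤ n)
    (hs : ∀ x : O, s • x - x ∈ Q ^ (n + 1)) {l : ℕ} (hl : (l : O) ∈ Q) (x : O) :
    s ^ l • x - x ∈ Q ^ (n + 2) := by
  have h1 := pow_smul_sub_mem Q hn hs x l
  have h2 : (l : O) * (s • x - x) ∈ Q ^ (n + 2) := by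
    rw [show n + 2 = (n + 1) + 1 from rfl, pow_succ']
    exact Ideal.mul_mem_mul hl (hs x)
  have h3 := Ideal.add_mem _ h1 h2
  rwa [sub_add_cancel] at h3

/-- The iterated powers. -/
theorem pow_pow_smul_sub_mem {s : I} (hs : ∀ x : O, s • x - x ∈ Q ^ 2) {l : ℕ}
    (hl : (l : O) ∈ Q) (m : ℕ) : ∀ x : O, s ^ (l ^ m) • x - x ∈ Q ^ (m + 2) := by
  induction m with
  | zero => simpa using hs
  | succ m ih =>
    intro x
    have h1 : s ^ l ^ (m + 1) = (s ^ l ^ m) ^ l := by rw [← pow_mul, ← pow_succ]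
    rw [h1]
    exact pow_prime_smul_sub_mem Q (n := m + 1) (by omega) ih hl x

/-- Congruent elements have more congruent powers. -/
theorem pow_sub_pow_mem {q : ℕ} (hq : (q : O) ∈ Q) {a b : O} (h : a - b ∈ Q) :
    a ^ q - b ^ q ∈ Q ^ 2 := by
  rw [← geom_sum₂_mul, pow_two]
  refine Ideal.mul_mem_mul ?_ h
  have hab : Ideal.Quotient.mk Q a = Ideal.Quotient.mk Q b := Ideal.Quotient.eq.2 h
  rw [← Ideal.Quotient.eq_zero_iff_mem, map_sum]
  have h1 : ∀ i ∈ Finset.range q, Ideal.Quotient.mk Q (a ^ i * b ^ (q - 1 - i)) =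
      Ideal.Quotient.mk Q b ^ (q - 1) := by
    intro i hi
    rw [Finset.mem_range] at hi
    rw [map_mul, map_pow, map_pow, hab, ← pow_add]
    congr 1
    omega
  rw [Finset.sum_congr rfl h1, Finset.sum_const, Finset.card_range, nsmul_eq_mul,
    ← map_natCast (Ideal.Quotient.mk Q), Ideal.Quotient.eq_zero_iff_mem.2 hq, zero_mul]

/-- If `s` acts trivially on `O / Q` and on `Q / Q²` then also on `O / Q²`. -/
theorem smul_sub_mem_sq [Q.IsMaximal] [Finite (O ⧸ Q)] {s : I} (hs : ∀ x : O, s • x - x ∈ Q)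
    (h : ∀ x ∈ Q, s • x - x ∈ Q ^ 2) (x : O) : s • x - x ∈ Q ^ 2 := by
  let := Ideal.Quotient.field Q
  have := Fintype.ofFinite (O ⧸ Q)
  have hq : ((Fintype.card (O ⧸ Q) : ℕ) : O) ∈ Q := by
    rw [← Ideal.Quotient.eq_zero_iff_mem, map_natCast]
    exact Nat.cast_card_eq_zero (O ⧸ Q)
  have h1 : x - x ^ Fintype.card (O ⧸ Q) ∈ Q := by
    rw [← Ideal.Quotient.eq, map_pow, FiniteField.pow_card]
  have h2 := h _ h1
  have h3 := pow_sub_pow_mem Q hq (hs x)
  have h4 := Ideal.add_mem _ h2 h3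
  rw [smul_sub, smul_pow'] at h4
  refine (congrArg (fun z => z ∈ Q ^ 2) ?_).mp h4
  ring

/-- The tame character, in general. -/
theorem exists_tame_core [IsDedekindDomain O] [Finite I]
    (hf : ∀ g : I, (∀ x : O, g • x = x) → g = 1) [Q.IsMaximal] [Finite (O ⧸ Q)] (hQ : Q ≠ ⊥)
    {l : ℕ} (hl : (l : O) ∈ Q) (hI : ∀ s : I, ∀ x : O, s • x - x ∈ Q) :
    ∃ θ : I →* (O ⧸ Q)ˣ, IsPGroup l θ.ker := by
  have hQt : Q ≠ ⊤ := Ideal.IsMaximal.ne_top inferInstance
  have hprime : Q.IsPrime := inferInstance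
  obtain ⟨p, hp1, hp2⟩ := Ideal.exists_mem_pow_notMem_pow_succ Q hQ hQt 1
  have hp1' : p ∈ Q := by simpa using hp1
  have hstab : ∀ s : I, ∀ x ∈ Q, s • x ∈ Q := fun s x hx => smul_mem_of_inertia Q (hI s) hx
  have hex : ∀ x ∈ Q, ∃ c : O, x - p * c ∈ Q ^ 2 := by
    intro x hx
    obtain ⟨d, e, he, hde⟩ := Ideal.exists_mul_add_mem_pow_succ hQ (i := 1) p x hp1 hp2
      (by simpa using hx)
    exact ⟨d, by rw [← hde, add_sub_cancel_left]; exact he⟩
  have huniq : ∀ a b : O, p * a - p * b ∈ Q ^ 2 → a - b ∈ Q := by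
    intro a b h
    rw [← mul_sub] at h
    exact Ideal.mem_prime_of_mul_mem_pow hQ (i := 1) hp2 h
  choose u hu using fun s : I => hex (s • p) (hstab s p hp1')
  let θ0 : I →* O ⧸ Q :=
    { toFun := fun s => Ideal.Quotient.mk Q (u s)
      map_one' := by
        rw [← map_one (Ideal.Quotient.mk Q), Ideal.Quotient.eq]
        apply huniq
        have h := hu 1
        rw [one_smul] at h
        rw [mul_one, ← neg_sub]
        exact (Ideal.neg_mem_iff _).2 h
      map_mul' := by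
        intro s t
        rw [← map_mul, Ideal.Quotient.eq]
        apply huniq
        have h1 := hu (s * t)
        have h2 : s • (t • p - p * u t) ∈ Q ^ 2 := smul_mem_pow Q (hstab s) 2 (hu t)
        have h3 : (s • p) * (s • u t - u t) ∈ Q ^ 2 := by
          rw [pow_two]
          exact Ideal.mul_mem_mul (hstab s p hp1') (hI s _)
        have h4 : (s • p - p * u s) * u t ∈ Q ^ 2 := Ideal.mul_mem_right _ _ (hu s)
        have h5 := Ideal.add_mem _ (Ideal.add_mem _ h2 h3) h4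
        have h6 := Ideal.sub_mem _ h5 h1
        rw [smul_sub, smul_mul', ← mul_smul] at h6
        refine (congrArg (fun z => z ∈ Q ^ 2) ?_).mp h6
        ring }
  refine ⟨θ0.toHomUnits, ?_⟩
  rintro ⟨s, hs⟩
  have hs1 : θ0 s = 1 := by
    have := congrArg Units.val (MonoidHom.mem_ker.1 hs)
    simpa using this
  have hs2 : u s - 1 ∈ Q := by
    rw [← Ideal.Quotient.eq, map_one]
    exact hs1
  have hs3 : s • p - p ∈ Q ^ 2 := by
    have h1 : p * (u s - 1) ∈ Q ^ 2 := by
      rw [pow_two]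
      exact Ideal.mul_mem_mul hp1' hs2
    have h2 := Ideal.add_mem _ (hu s) h1
    refine (congrArg (fun z => z ∈ Q ^ 2) ?_).mp h2
    ring
  have hs4 : ∀ x ∈ Q, s • x - x ∈ Q ^ 2 := by
    intro x hx
    obtain ⟨c, hc⟩ := hex x hx
    have h1 : (s • p - p) * s • c ∈ Q ^ 2 := Ideal.mul_mem_right _ _ hs3
    have h2 : p * (s • c - c) ∈ Q ^ 2 := by
      rw [pow_two]
      exact Ideal.mul_mem_mul hp1' (hI s c)
    have h3 : s • (x - p * c) ∈ Q ^ 2 := smul_mem_pow Q (hstab s) 2 hc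
    have h4 := Ideal.sub_mem _ (Ideal.add_mem _ (Ideal.add_mem _ h1 h2) h3) hc
    rw [smul_sub, smul_mul'] at h4
    refine (congrArg (fun z => z ∈ Q ^ 2) ?_).mp h4
    ring
  have hs5 : ∀ x : O, s • x - x ∈ Q ^ 2 := smul_sub_mem_sq Q (hI s) hs4
  -- elements different from `1` move something by an element outside a power of `Q`
  have hN : ∀ g : I, ∃ N : ℕ, g ≠ 1 → ∃ x : O, g • x - x ∉ Q ^ N := by
    intro g
    by_cases hg : g = 1
    · exact ⟨0, fun h => absurd hg h⟩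
    · have : ∃ x : O, g • x ≠ x := by
        by_contra hcon
        push Not at hcon
        exact hg (hf g hcon)
      obtain ⟨x, hx⟩ := this
      have h1 : g • x - x ∉ (⨅ i : ℕ, Q ^ i) := by
        rw [Ideal.iInf_pow_eq_bot_of_isDomain Q hQt, Ideal.mem_bot]
        exact sub_ne_zero.2 hx
      rw [Ideal.mem_iInf] at h1
      push Not at h1
      obtain ⟨N, hN⟩ := h1
      exact ⟨N, fun _ => ⟨x, hN⟩⟩
  choose N hN using hN
  have := Fintype.ofFinite I
  refine ⟨Finset.univ.sup N, ?_⟩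
  apply Subtype.ext
  rw [Subgroup.coe_pow, Subgroup.coe_one]
  by_contra hne
  obtain ⟨x, hx⟩ := hN _ hne
  apply hx
  refine Ideal.pow_le_pow_right ?_ (pow_pow_smul_sub_mem Q hs5 hl (Finset.univ.sup N) x)
  exact le_trans (Finset.le_sup (Finset.mem_univ _)) (by omega)

end general

variable {F L : Type*} [Field F] [NumberField F] [Field L] [NumberField L] [Algebra F L]

/-- The tame character of the inertia group: its kernel is an `ℓ`-group, where `ℓ` is the residue
characteristic. -/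
theorem exists_tame (Q : Ideal (𝓞 L)) [Q.IsMaximal] {ℓ : ℕ} [Fact ℓ.Prime] (hℓ : (ℓ : 𝓞 L) ∈ Q) :
    ∃ θ : Q.inertia (MulAction.stabilizer (L ≃ₐ[F] L) Q) →* (𝓞 L ⧸ Q)ˣ,
      IsPGroup ℓ θ.ker := by
  have hp : ℓ.Prime := Fact.out
  have hQ : Q ≠ ⊥ := by
    rintro rfl
    rw [Ideal.mem_bot] at hℓ
    exact hp.ne_zero (by exact_mod_cast hℓ)
  refine exists_tame_core (I := Q.inertia (MulAction.stabilizer (L ≃ₐ[F] L) Q)) Q ?_ hQ hℓ
    fun s x => s.2 x
  intro g hg
  apply Subtype.ext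
  apply Subtype.ext
  apply AlgEquiv.ext
  intro y
  obtain ⟨a, b, hb, rfl⟩ := IsFractionRing.div_surjective (A := 𝓞 L) y
  have h1 : ∀ x : 𝓞 L, ((g : MulAction.stabilizer (L ≃ₐ[F] L) Q) : L ≃ₐ[F] L)
      (algebraMap (𝓞 L) L x) = algebraMap (𝓞 L) L x := fun x => congrArg (algebraMap (𝓞 L) L) (hg x)
  rw [map_div₀, h1, h1]
  rfl

end Pool.Agent.Helper2.LR
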