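import Pool.Agent.Helper2.LR.GL2
import Pool.Agent.Helper2.LR.Odd
import Pool.Agent.Helper2.LR.Dec
import Pool.Agent.Helper2.LR.Tame

/-!
# Local images at the places which are not bad
-/

open scoped NumberField Pointwise

namespace Pool.Agent.Helper2.LR

variable {F L k : Type*} [Field F] [NumberField F] [Field L] [NumberField L] [Algebra F L]
  [Field k] [IsGalois F L]

theorem decIm_eq_range (ρ : (L ≃ₐ[F] L) →* Matrix.GeneralLinearGroup (Fin 2) k)
    (Q : Ideal (𝓞 L)) :
    (ρ.comp (MulAction.stabilizer (L ≃ₐ[F] L) Q).subtype).range = decIm ρ Q := by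
  rw [MonoidHom.range_comp, Subgroup.range_subtype]
  rfl

/-- At every place which is not bad the image of the decomposition group fixes a line. -/
theorem fixesLine_decIm [CharP k 2] [IsAlgClosed k]
    (ρ : (L ≃ₐ[F] L) →* Matrix.GeneralLinearGroup (Fin 2) k) (Q : Ideal (𝓞 L)) [Q.IsMaximal]
    {m : ℕ} (h : ¬ Bad m ρ Q) : FixesLine (decIm ρ Q) := by
  set D := MulAction.stabilizer (L ≃ₐ[F] L) Q with hD
  let f : D →* decIm ρ Q :=
    { toFun := fun d => ⟨ρ d, ⟨d, d.2, rfl⟩⟩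
      map_one' := Subtype.ext (map_one ρ)
      map_mul' := fun x y => Subtype.ext (map_mul ρ _ _) }
  have hf : Function.Surjective f := by
    rintro ⟨_, d, hd, rfl⟩
    exact ⟨⟨d, hd⟩, rfl⟩
  by_cases hram : (m : 𝓞 L) ∈ Q ∨ Ramified ρ Q
  · have hs : Group.IsSolvable D := stabilizer_solvable Q
    exact fixesLine_of_solvable _ (Group.isSolvable_of_surjective hf) fun h2 => h ⟨hram, h2⟩
  · push Not at hram
    have hc : IsCyclic (D ⧸ Q.inertia D) := quot_cyclic Q
    have hker : Q.inertia D ≤ f.ker := by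
      intro g hg
      rw [MonoidHom.mem_ker]
      apply Subtype.ext
      by_contra hne
      exact hram.2 ⟨g, hg, hne⟩
    exact fixesLine_of_cyclic _ (isCyclic_of_surjective (QuotientGroup.lift _ f hker)
      (QuotientGroup.lift_surjective_of_surjective _ f hf hker))

/-- At the places outside `2` which are ramified or contain `m` and are not bad the order is
odd. -/
theorem odd_decIm [CharP k 2] [IsAlgClosed k]
    (ρ : (L ≃ₐ[F] L) →* Matrix.GeneralLinearGroup (Fin 2) k) (Q : Ideal (𝓞 L)) [Q.IsMaximal]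
    (h2 : (2 : 𝓞 L) ∉ Q) {m : ℕ} (hram : (m : 𝓞 L) ∈ Q ∨ Ramified ρ Q)
    (h : ¬ Bad m ρ Q) :
    Odd (Nat.card (decIm ρ Q)) := by
  have : FiniteDimensional F L := Module.Finite.of_restrictScalars_finite ℚ F L
  obtain ⟨ℓ, hℓ, hmem⟩ := exists_prime_mem Q
  have : Fact ℓ.Prime := ⟨hℓ⟩
  have hℓ2 : ℓ ≠ 2 := by
    rintro rfl
    exact h2 (by simpa using hmem)
  obtain ⟨θ, hθ⟩ := exists_tame (F := F) Q hmem
  have hfin : Finite (𝓞 L ⧸ Q) := Ideal.finiteQuotientOfFreeOfNeBot Q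
    (Ring.ne_bot_of_isMaximal_of_not_isField ‹Q.IsMaximal›
      (NumberField.RingOfIntegers.not_isField L))
  have hdom : IsDomain (𝓞 L ⧸ Q) := Ideal.Quotient.isDomain Q
  have hcyc : IsCyclic (𝓞 L ⧸ Q)ˣ := inferInstance
  have hc := quot_cyclic (F := F) Q
  have hl := fixesLine_decIm ρ Q h
  have h3 := odd_card (Q.inertia (MulAction.stabilizer (L ≃ₐ[F] L) Q)) hc θ hℓ2 hθ
    (ρ.comp (MulAction.stabilizer (L ≃ₐ[F] L) Q).subtype) (by rw [decIm_eq_range]; exact hl)
    (by rw [decIm_eq_range]; exact fun h4 => h ⟨hram, h4⟩)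
  rwa [decIm_eq_range] at h3

end Pool.Agent.Helper2.LR
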