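import Pool.Agent.Helper2.LR.Tower
import Pool.Agent.Helper2.LR.Local

/-!
# Reduction to locally reducible representations in characteristic two
-/

open scoped NumberField Pointwise

universe u w

namespace Pool.Agent.Helper2.LR

open Pool.Agent.Helper93.DR in
theorem main {k : Type w} [Field k] [CharP k 2] [IsAlgClosed k] {F L : Type u} [Field F]
    [NumberField F] [NumberField.IsTotallyReal F] [Field L] [NumberField L] [Algebra F L]
    [IsGalois F L] {m : ℕ} (hm : m ≠ 0) (ρ : (L ≃ₐ[F] L) →* Matrix.GeneralLinearGroup (Fin 2) k) :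
    ∃ (F' L' : Type u) (_ : Field F') (_ : NumberField F') (_ : Field L') (_ : NumberField L')
      (_ : Algebra F F') (_ : Algebra F L') (_ : Algebra F' L') (_ : Algebra L L')
      (_ : IsScalarTower F F' L') (_ : IsScalarTower F L L'),
      NumberField.IsTotallyReal F' ∧ IsGalois F' L' ∧
      (∃ r, Module.finrank F F' = 2 ^ r ∧ 2 ^ r ∣ Nat.card ρ.range) ∧
      (∀ Q : Ideal (𝓞 L'), Q.IsMaximal →
        FixesLine (decIm (bc (F' := F') (L' := L') ρ) Q) ∧
        ((2 : 𝓞 L') ∉ Q → (m : 𝓞 L') ∈ Q ∨ Ramified (bc (F' := F') (L' := L') ρ) Q →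
          Odd (Nat.card (decIm (bc (F' := F') (L' := L') ρ) Q))) ∧
        ((2 : 𝓞 L') ∈ Q → ¬ HasIdxTwo (decIm (bc (F' := F') (L' := L') ρ) Q))) ∧
      (¬ Group.IsSolvable ρ.range → ¬ Group.IsSolvable (bc (F' := F') (L' := L') ρ).range) ∧
      ∀ κ, Modular F' κ (bc (F' := F') (L' := L') ρ) →
        Modular F (κ * Module.finrank F F') ρ := by
  have hFL : FiniteDimensional F L := Module.Finite.of_restrictScalars_finite ℚ F L
  have hfin : Finite ρ.range := Set.finite_range ρ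
  set n := (Nat.card ρ.range).factorization 2 with hn
  have hpos : Nat.card ρ.range ≠ 0 := Nat.card_pos.ne'
  have hbound : ∀ Q : Ideal (𝓞 L), Q.IsMaximal → Bad (2 * m) ρ Q →
      ¬ 2 ^ (n + 1) ∣ Nat.card (decIm ρ Q) := by
    intro Q _ _ hdvd
    have hle : decIm ρ Q ≤ ρ.range := by
      rintro _ ⟨g, -, rfl⟩
      exact ⟨g, rfl⟩
    have h1 := hdvd.trans (Subgroup.card_dvd_of_le hle)
    have h2 := (Nat.prime_two.pow_dvd_iff_le_factorization hpos).mp h1
    omega
  obtain ⟨F', L', i1, i2, i3, i4, i5, i6, i7, i8, i9, i10, hreal, hG, hdvd, hbad, hsol, hmod⟩ :=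
    concl_of_bound (mul_ne_zero two_ne_zero hm) n F L ρ hbound
  refine ⟨F', L', i1, i2, i3, i4, i5, i6, i7, i8, i9, i10, hreal, hG, ?_, ?_, hsol, hmod⟩
  · obtain ⟨r, hr, h⟩ := (Nat.dvd_prime_pow Nat.prime_two).mp hdvd
    exact ⟨r, h, (pow_dvd_pow 2 hr).trans (Nat.ordProj_dvd _ 2)⟩
  · intro Q hQ
    refine ⟨fixesLine_decIm _ Q (hbad Q hQ), fun h1 h2 => odd_decIm _ Q h1 ?_ (hbad Q hQ),
      fun h1 h2 => hbad Q hQ ⟨Or.inl ?_, h2⟩⟩
    · refine h2.imp (fun h => ?_) id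
      rw [Nat.cast_mul]
      exact Ideal.mul_mem_left _ _ h
    · rw [Nat.cast_mul]
      exact Ideal.mul_mem_right _ _ h1

end Pool.Agent.Helper2.LR
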