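import Pool.Agent.Helper93.DR.Defs

/-!
# Totally real quadratic extensions
-/

open scoped NumberField

universe u

namespace Pool.Agent.Helper2.LR

open Polynomial NumberField

/-- The extension of a totally real field by a square root of a totally positive integer. -/
theorem exists_quad (F : Type u) [Field F] [NumberField F] [NumberField.IsTotallyReal F] (a : 𝓞 F)
    (ha : Pool.Agent.Helper93.DR.TotPos F (a : F)) :
    ∃ (F' : Type u) (_ : Field F') (_ : NumberField F') (_ : Algebra F F'),
      IsGalois F F' ∧ NumberField.IsTotallyReal F' ∧ IsPGroup 2 (F' ≃ₐ[F] F') ∧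
        Nat.card (F' ≃ₐ[F] F') ∣ 2 ∧
        ∃ t : 𝓞 F', t ^ 2 = algebraMap (𝓞 F) (𝓞 F') a := by
  classical
  set p : F[X] := X ^ 2 - C (a : F) with hp
  have hpm : p.Monic := monic_X_pow_sub_C (a : F) (by norm_num)
  have hp0 : p ≠ 0 := hpm.ne_zero
  have hdeg : p.degree ≠ 0 := by
    rw [hp, degree_X_pow_sub_C (by norm_num) (a : F)]
    norm_num
  have hchar : CharZero p.SplittingField := algebraRat.charZero _
  have hfd : FiniteDimensional ℚ p.SplittingField := FiniteDimensional.trans ℚ F p.SplittingField
  have hnf : NumberField p.SplittingField := ⟨⟩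
  have hsplits := SplittingField.splits p
  have hev : ∀ x : p.SplittingField,
      aeval x p = x ^ 2 - algebraMap F p.SplittingField (a : F) := fun x =>
    show aeval x (X ^ 2 - C (a : F) : F[X]) = x ^ 2 - algebraMap F p.SplittingField (a : F) by
      rw [map_sub, map_pow, aeval_X, aeval_C]
  obtain ⟨t, ht⟩ : ∃ t : p.SplittingField, t ^ 2 = algebraMap F p.SplittingField (a : F) := by
    have hdeg' : (p.map (algebraMap F p.SplittingField)).degree ≠ 0 := by
      rw [degree_map]
      exact hdeg
    obtain ⟨t, ht⟩ := hsplits.exists_eval_eq_zero hdeg'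
    refine ⟨t, ?_⟩
    rw [eval_map, ← aeval_def, hev] at ht
    exact sub_eq_zero.mp ht
  have hadj : Algebra.adjoin F ({t} : Set p.SplittingField) = ⊤ := by
    rw [eq_top_iff, ← IsSplittingField.adjoin_rootSet p.SplittingField p]
    refine Algebra.adjoin_le fun x hx => ?_
    rw [mem_rootSet] at hx
    have h1 : x ^ 2 = algebraMap F p.SplittingField (a : F) := by
      have := hx.2
      rw [hev] at this
      exact sub_eq_zero.mp this
    rw [← ht] at h1
    rcases sq_eq_sq_iff_eq_or_eq_neg.mp h1 with h | h
    · rw [h]
      exact Algebra.subset_adjoin rfl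
    · rw [h]
      exact neg_mem (Algebra.subset_adjoin rfl)
  have hg : ∀ g : p.SplittingField ≃ₐ[F] p.SplittingField, g t = t ∨ g t = -t := by
    intro g
    apply sq_eq_sq_iff_eq_or_eq_neg.mp
    rw [← map_pow, ht, AlgEquiv.commutes]
  have hext : ∀ g h : p.SplittingField ≃ₐ[F] p.SplittingField, g t = h t → g = h := by
    intro g h hgh
    have : (g : p.SplittingField →ₐ[F] p.SplittingField) = h := by
      refine AlgHom.ext_of_adjoin_eq_top hadj ?_
      intro x hx
      rw [Set.mem_singleton_iff.mp hx]
      exact hgh
    exact AlgEquiv.coe_toAlgHom_injective this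
  have hgal : IsGalois F p.SplittingField := by
    have : Normal F p.SplittingField := Normal.of_isSplittingField p
    exact ⟨⟩
  refine ⟨p.SplittingField, inferInstance, hnf, inferInstance, hgal, ⟨fun v => ?_⟩, ?_, ?_, ?_⟩
  · -- totally real
    rw [InfinitePlace.isReal_iff, ComplexEmbedding.isReal_iff]
    set φ : p.SplittingField →+* ℂ := v.embedding with hφ
    have hr : ComplexEmbedding.IsReal (φ.comp (algebraMap F p.SplittingField)) :=
      IsTotallyReal.complexEmbedding_isReal _
    have hτ : ∀ x : F, ((hr.embedding x : ℝ) : ℂ) = φ (algebraMap F p.SplittingField x) := by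
      intro x
      exact hr.coe_embedding_apply x
    have hpos : 0 < hr.embedding (a : F) := ha hr.embedding
    have hsq : (φ t) ^ 2 = ((Real.sqrt (hr.embedding (a : F)) : ℝ) : ℂ) ^ 2 := by
      rw [← map_pow, ht, ← hτ, ← Complex.ofReal_pow, Real.sq_sqrt hpos.le]
    have hconjt : (starRingEnd ℂ) (φ t) = φ t := by
      rcases sq_eq_sq_iff_eq_or_eq_neg.mp hsq with h | h
      · rw [h, Complex.conj_ofReal]
      · rw [h, map_neg, Complex.conj_ofReal]
    ext x
    have hx : x ∈ Algebra.adjoin F ({t} : Set p.SplittingField) := by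
      rw [hadj]
      trivial
    rw [ComplexEmbedding.conjugate_coe_eq]
    induction hx using Algebra.adjoin_induction with
    | mem x hx =>
      rw [Set.mem_singleton_iff.mp hx]
      exact hconjt
    | algebraMap r => rw [← hτ, Complex.conj_ofReal]
    | add x y _ _ hx hy => rw [map_add, map_add, hx, hy]
    | mul x y _ _ hx hy => rw [map_mul, map_mul, hx, hy]
  · -- a 2-group
    intro g
    refine ⟨1, hext _ _ ?_⟩
    rw [pow_one, pow_two, AlgEquiv.mul_apply, AlgEquiv.one_apply]
    rcases hg g with h | h
    · rw [h, h]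
    · rw [h, map_neg, h, neg_neg]
  · -- the order
    have hinj : Function.Injective
        (fun g : p.SplittingField ≃ₐ[F] p.SplittingField => decide (g t = t)) := by
      intro g h hgh
      apply hext
      have h1 : g t = t ↔ h t = t := by simpa using hgh
      rcases hg g with h2 | h2 <;> rcases hg h with h3 | h3
      · rw [h2, h3]
      · rw [h2, h1.mp h2]
      · rw [h3, h1.mpr h3]
      · rw [h2, h3]
    have hle : Nat.card (p.SplittingField ≃ₐ[F] p.SplittingField) ≤ 2 := by
      have := Nat.card_le_card_of_injective _ hinj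
      simpa using this
    have hpos : 0 < Nat.card (p.SplittingField ≃ₐ[F] p.SplittingField) := Nat.card_pos
    interval_cases h : Nat.card (p.SplittingField ≃ₐ[F] p.SplittingField) <;> norm_num
  · -- the square root
    have hint : IsIntegral ℤ t := by
      have h1 : IsIntegral ℤ (t ^ 2) := by
        rw [ht]
        exact (RingOfIntegers.isIntegral_coe a).algebraMap
      exact IsIntegral.of_pow (by norm_num) h1
    refine ⟨⟨t, hint⟩, ?_⟩
    apply RingOfIntegers.ext
    change t ^ 2 = algebraMap F p.SplittingField (a : F)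
    exact ht

end Pool.Agent.Helper2.LR
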