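import Pool.Agent.Helper2.LR.Defs

/-!
# Elements on which a decomposition group acts through signs
-/

open scoped NumberField Pointwise

namespace Pool.Agent.Helper2.LR

variable {F L k : Type*} [Field F] [NumberField F] [Field L] [NumberField L] [Algebra F L]
  [Field k]

/-- For a character `χ` with values `±1` of a subgroup `D` of the Galois group there is a nonzero
integer `s` with `d s = χ(d) s` for all `d` in `D`. -/
theorem exists_eigen (D : Subgroup (L ≃ₐ[F] L)) (χ : D →* ℤˣ) :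
    ∃ s : 𝓞 L, s ≠ 0 ∧ ∀ d : D, (d : L ≃ₐ[F] L) • s = ((χ d : ℤˣ) : ℤ) • s := by
  classical
  have : FiniteDimensional F L := Module.Finite.of_restrictScalars_finite ℚ F L
  have hfin : Finite (L ≃ₐ[F] L) := inferInstance
  have hfD : Fintype D := Fintype.ofFinite D
  -- a nonzero value of the sum
  have h1 : ∃ x : L, ∑ d : D, (((χ d : ℤˣ) : ℤ) : L) * (d : L ≃ₐ[F] L) x ≠ 0 := by
    by_contra hcon
    push Not at hcon
    have hinj : Function.Injective
        (fun d : D => (((d : L ≃ₐ[F] L) : L →ₐ[F] L) : L →* L)) := by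
      intro d e h
      apply Subtype.ext
      ext x
      exact DFunLike.congr_fun h x
    have hli := (linearIndependent_monoidHom L L).comp _ hinj
    rw [Fintype.linearIndependent_iff] at hli
    have h2 := hli (fun d : D => (((χ d : ℤˣ) : ℤ) : L)) (by
      funext x
      rw [Finset.sum_apply]
      exact hcon x) 1
    rw [map_one] at h2
    simp at h2
  obtain ⟨x, hx⟩ := h1
  obtain ⟨y, m, hm, hxy⟩ : ∃ (y : 𝓞 L) (m : ℤ), m ≠ 0 ∧ m • x = (y : L) := by
    have halg : IsAlgebraic ℤ x :=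
      (IsFractionRing.isAlgebraic_iff ℤ ℚ L).mpr (Algebra.IsAlgebraic.isAlgebraic x)
    obtain ⟨m, hm, hmi⟩ := halg.exists_integral_multiple
    exact ⟨⟨m • x, hmi⟩, m, hm, rfl⟩
  have hcast : algebraMap (𝓞 L) L (∑ d : D, ((χ d : ℤˣ) : ℤ) • ((d : L ≃ₐ[F] L) • y)) =
      m • ∑ d : D, (((χ d : ℤˣ) : ℤ) : L) * (d : L ≃ₐ[F] L) x := by
    rw [map_sum, Finset.smul_sum]
    refine Finset.sum_congr rfl fun d _ => ?_
    have h3 : algebraMap (𝓞 L) L ((d : L ≃ₐ[F] L) • y) = (d : L ≃ₐ[F] L) (y : L) := rfl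
    rw [map_zsmul, h3, ← hxy, map_zsmul, zsmul_eq_mul, zsmul_eq_mul, zsmul_eq_mul]
    ring
  refine ⟨∑ d : D, ((χ d : ℤˣ) : ℤ) • ((d : L ≃ₐ[F] L) • y), ?_, ?_⟩
  · intro h0
    rw [h0, map_zero] at hcast
    rcases smul_eq_zero.mp hcast.symm with h | h
    · exact hm h
    · exact hx h
  · intro d
    rw [Finset.smul_sum, Finset.smul_sum]
    refine Fintype.sum_equiv (Equiv.mulLeft d) _ _ fun e => ?_
    have h5 : ((χ d : ℤˣ) : ℤ) * ((χ d : ℤˣ) : ℤ) = 1 := by
      rw [← Units.val_mul, Int.units_mul_self, Units.val_one]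
    rw [Equiv.coe_mulLeft, map_mul, Units.val_mul, Subgroup.coe_mul, smul_smul, ← mul_assoc, h5,
      one_mul, mul_smul, smul_comm]

/-- The element attached to a subgroup of index two of the image of a decomposition group. -/
theorem exists_sign (ρ : (L ≃ₐ[F] L) →* Matrix.GeneralLinearGroup (Fin 2) k) (Q : Ideal (𝓞 L))
    (K : Subgroup (decIm ρ Q)) (hK : K.index = 2) : ∃ s : 𝓞 L, s ≠ 0 ∧
      ∀ d : L ≃ₐ[F] L, d • Q = Q → (ρ d ∈ K.map (decIm ρ Q).subtype → d • s = s) ∧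
        (ρ d ∉ K.map (decIm ρ Q).subtype → d • s = -s) := by
  classical
  set D := MulAction.stabilizer (L ≃ₐ[F] L) Q with hD
  let f : D →* decIm ρ Q :=
    { toFun := fun d => ⟨ρ d, ⟨d, d.2, rfl⟩⟩
      map_one' := Subtype.ext (map_one ρ)
      map_mul' := fun x y => Subtype.ext (map_mul ρ _ _) }
  let χ : D →* ℤˣ :=
    { toFun := fun d => if f d ∈ K then 1 else -1
      map_one' := by rw [if_pos]; rw [map_one]; exact K.one_mem
      map_mul' := fun x y => by
        have h1 : f x * f y ∈ K ↔ (f x ∈ K ↔ f y ∈ K) :=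
          Subgroup.mul_mem_iff_of_index_two hK
        by_cases hx : f x ∈ K <;> by_cases hy : f y ∈ K <;> simp [h1, hx, hy] }
  obtain ⟨s, hs, h⟩ := exists_eigen D χ
  refine ⟨s, hs, fun d hd => ?_⟩
  have hdD : d ∈ D := hd
  have hiff : ρ d ∈ K.map (decIm ρ Q).subtype ↔ f ⟨d, hdD⟩ ∈ K := by
    constructor
    · rintro ⟨y, hy, hyd⟩
      have : f ⟨d, hdD⟩ = y := Subtype.ext hyd.symm
      rw [this]
      exact hy
    · intro hy
      exact ⟨f ⟨d, hdD⟩, hy, rfl⟩
  have hd1 := h ⟨d, hdD⟩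
  constructor
  · intro hmem
    have h2 : χ ⟨d, hdD⟩ = 1 := if_pos (hiff.mp hmem)
    rw [h2] at hd1
    simpa using hd1
  · intro hmem
    have h2 : χ ⟨d, hdD⟩ = -1 := if_neg fun h3 => hmem (hiff.mpr h3)
    rw [h2] at hd1
    simpa using hd1

end Pool.Agent.Helper2.LR
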