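import Pool.Agent.Helper2.LR.Good
import Pool.Agent.Helper2.LR.Bc
import Pool.Agent.Helper2.LR.Quad
import Pool.Agent.Helper93.DR.Comp

/-!
# The quadratic step
-/

open scoped NumberField Pointwise
open IsDedekindDomain

universe u w

namespace Pool.Agent.Helper2.LR

theorem finite_decIm {F L k : Type*} [Field F] [NumberField F] [Field L] [NumberField L]
    [Algebra F L] [Field k] (ρ : (L ≃ₐ[F] L) →* Matrix.GeneralLinearGroup (Fin 2) k)
    (Q : Ideal (𝓞 L)) : Finite (decIm ρ Q) := by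
  have : FiniteDimensional F L := Module.Finite.of_restrictScalars_finite ℚ F L
  have : Finite (MulAction.stabilizer (L ≃ₐ[F] L) Q) := inferInstance
  exact Finite.of_surjective (fun d : MulAction.stabilizer (L ≃ₐ[F] L) Q =>
    (⟨ρ d, ⟨d, d.2, rfl⟩⟩ : decIm ρ Q)) fun ⟨_, d, hd, h⟩ => ⟨⟨d, hd⟩, Subtype.ext h⟩

theorem not_field_ne_bot {L : Type*} [Field L] [NumberField L] {Q : Ideal (𝓞 L)}
    (hQ : Q.IsMaximal) : Q ≠ ⊥ :=
  Ring.ne_bot_of_isMaximal_of_not_isField hQ (NumberField.RingOfIntegers.not_isField L)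

/-- One quadratic step: all bad images get smaller. -/
theorem exists_step {m : ℕ} (hm : m ≠ 0) {k : Type w} [Field k] {F L : Type u} [Field F] [NumberField F] [Field L]
    [NumberField L] [Algebra F L] [NumberField.IsTotallyReal F] [IsGalois F L]
    (ρ : (L ≃ₐ[F] L) →* Matrix.GeneralLinearGroup (Fin 2) k) (n : ℕ)
    (hn : ∀ Q : Ideal (𝓞 L), Q.IsMaximal → Bad m ρ Q → ¬ 2 ^ (n + 2) ∣ Nat.card (decIm ρ Q)) :
    ∃ (F' L' : Type u) (_ : Field F') (_ : NumberField F') (_ : Field L') (_ : NumberField L')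
      (_ : Algebra F F') (_ : Algebra F L') (_ : Algebra F' L') (_ : Algebra L L')
      (_ : IsScalarTower F F' L') (_ : IsScalarTower F L L'),
      NumberField.IsTotallyReal F' ∧ IsGalois F F' ∧ IsGalois F L' ∧
        IsPGroup 2 (F' ≃ₐ[F] F') ∧ Nat.card (F' ≃ₐ[F] F') ∣ 2 ∧
        ∀ Q' : Ideal (𝓞 L'), Q'.IsMaximal → Bad m (bc (F' := F') (L' := L') ρ) Q' →
          ¬ 2 ^ (n + 1) ∣ Nat.card (decIm (bc (F' := F') (L' := L') ρ) Q') := by
  obtain ⟨a, ha, hgood⟩ := exists_good hm ρ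
  obtain ⟨F', _, _, _, hGal, hreal, hP, hcard, t, ht⟩ := exists_quad F a ha
  obtain ⟨L', _, _, _, _, _, hT1, hT2, hGal'⟩ :=
    Pool.Agent.Helper93.DR.exists_compositum F F' L
  refine ⟨F', L', inferInstance, inferInstance, inferInstance, inferInstance, inferInstance,
    inferInstance, inferInstance, inferInstance, hT1, hT2, hreal, hGal, hGal', hP, hcard, ?_⟩
  intro Q' hQ' hbad
  set Q : Ideal (𝓞 L) := Q'.comap (algebraMap (𝓞 L) (𝓞 L')) with hQ
  have hQmax : Q.IsMaximal := Ideal.isMaximal_comap_of_isIntegral_of_isMaximal Q'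
  have hspec : (m : 𝓞 L) ∈ Q ∨ Ramified ρ Q := by
    rcases hbad.1 with h | h
    · left
      rw [hQ, Ideal.mem_comap, map_natCast]
      exact h
    · exact Or.inr (ramified_of_bc ρ Q' h)
  by_cases hidx : HasIdxTwo (decIm ρ Q)
  · have hbadQ : Bad m ρ Q := ⟨hspec, hidx⟩
    let Qs : HeightOneSpectrum (𝓞 L) :=
      { asIdeal := Q, isPrime := hQmax.isPrime, ne_bot := not_field_ne_bot hQmax }
    let Qs' : HeightOneSpectrum (𝓞 L') :=
      { asIdeal := Q', isPrime := hQ'.isPrime, ne_bot := not_field_ne_bot hQ' }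
    obtain ⟨s, K, hK, hd, hclose⟩ := hgood Qs hbadQ
    have hle : decIm (bc (F' := F') (L' := L') ρ) Q' ≤ K := by
      rintro _ ⟨g, hg, rfl⟩
      have hg' : (AlgEquiv.restrictScalarsHom F g : L' ≃ₐ[F] L') • Q' = Q' := hg
      have hmem := restrict_mem (F := F) (L := L) Q' hg'
      have hgt : (AlgEquiv.restrictScalarsHom F g : L' ≃ₐ[F] L') •
          algebraMap (𝓞 F') (𝓞 L') t = algebraMap (𝓞 F') (𝓞 L') t := by
        apply NumberField.RingOfIntegers.ext
        exact g.commutes ((t : 𝓞 F') : F')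
      obtain ⟨h1, h2⟩ := hd _ hmem
      exact h2 (smul_eq_of_close Qs' Qs rfl a s (algebraMap (𝓞 F') (𝓞 L') t)
        (by rw [← map_pow, ht, ← IsScalarTower.algebraMap_apply]) hclose _ hg' hgt h1)
    intro hdvd
    refine hn Q hQmax hbadQ ?_
    have h3 : Nat.card (decIm ρ Q) = 2 * Nat.card K := hK
    rw [h3, pow_succ, mul_comm]
    exact mul_dvd_mul_left 2 (hdvd.trans (Subgroup.card_dvd_of_le hle))
  · exfalso
    have h6 := decIm_bc_eq ρ hcard Q' hidx
    exact hidx (h6 ▸ hbad.2)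

end Pool.Agent.Helper2.LR
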