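import Pool.Agent.Helper2.LR.Step
import Pool.Agent.Helper93.DR.Main
import Pool.Agent.Helper93.DR.Infl
import Pool.Agent.Helper93.DR.Solv

/-!
# The tower of quadratic extensions
-/

open scoped NumberField Pointwise
open IsDedekindDomain

universe u w

namespace Pool.Agent.Helper2.LR

open Pool.Agent.Helper93.DR in
theorem bc_eq_res {F F' L L' k : Type*} [Field F] [Field F'] [Field L] [Field L'] [Field k]
    [Algebra F F'] [Algebra F L] [Algebra F L'] [Algebra F' L'] [Algebra L L']
    [IsScalarTower F F' L'] [IsScalarTower F L L'] [Normal F L]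
    (ρ : (L ≃ₐ[F] L) →* Matrix.GeneralLinearGroup (Fin 2) k) :
    bc (F' := F') (L' := L') ρ = res (F' := F')
      (ρ.comp (AlgEquiv.restrictNormalHom L : (L' ≃ₐ[F] L') →* (L ≃ₐ[F] L))) := rfl

theorem restrict_apply {F F' L L' : Type*} [Field F] [Field F'] [Field L] [Field L']
    [Algebra F F'] [Algebra F L] [Algebra F L'] [Algebra F' L'] [Algebra L L']
    [IsScalarTower F F' L'] [IsScalarTower F L L'] [Normal F L] (g : L' ≃ₐ[F'] L') (x : L) :
    algebraMap L L' (AlgEquiv.restrictNormalHom L (AlgEquiv.restrictScalarsHom F g) x) =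
      g (algebraMap L L' x) :=
  AlgEquiv.restrictNormal_commutes (AlgEquiv.restrictScalarsHom F g) L x

/-- Base change to the same fields. -/
theorem bc_self {F L k : Type*} [Field F] [Field L] [Field k] [Algebra F L] [Normal F L]
    (ρ : (L ≃ₐ[F] L) →* Matrix.GeneralLinearGroup (Fin 2) k) :
    bc (F' := F) (L' := L) ρ = ρ := by
  ext1 g
  have h : AlgEquiv.restrictNormalHom L (AlgEquiv.restrictScalarsHom F g) = g := by
    ext x
    exact restrict_apply (F := F) (F' := F) (L := L) (L' := L) g x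
  change ρ (AlgEquiv.restrictNormalHom L (AlgEquiv.restrictScalarsHom F g)) = ρ g
  rw [h]

/-- Base change in stages. -/
theorem bc_bc {F F₁ F₂ L L₁ L₂ k : Type*} [Field F] [Field F₁] [Field F₂] [Field L] [Field L₁]
    [Field L₂] [Field k] [Algebra F F₁] [Algebra F F₂] [Algebra F₁ F₂]
    [Algebra F L] [Algebra F L₁] [Algebra F L₂] [Algebra F₁ L₁] [Algebra F₁ L₂] [Algebra F₂ L₂]
    [Algebra L L₁] [Algebra L L₂] [Algebra L₁ L₂]
    [IsScalarTower F F₁ L₁] [IsScalarTower F L L₁] [IsScalarTower F₁ F₂ L₂]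
    [IsScalarTower F₁ L₁ L₂] [IsScalarTower F F₂ L₂] [IsScalarTower F L L₂]
    [IsScalarTower L L₁ L₂] [Normal F L] [Normal F₁ L₁]
    (ρ : (L ≃ₐ[F] L) →* Matrix.GeneralLinearGroup (Fin 2) k) :
    bc (F' := F₂) (L' := L₂) (bc (F' := F₁) (L' := L₁) ρ) = bc (F' := F₂) (L' := L₂) ρ := by
  ext1 g
  change ρ _ = ρ _
  congr 1
  ext x
  apply (algebraMap L L₂).injective
  rw [restrict_apply (F := F) (F' := F₂) (L := L) (L' := L₂) g x,
    IsScalarTower.algebraMap_apply L L₁ L₂, restrict_apply (F := F) (F' := F₁) (L := L) (L' := L₁),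
    restrict_apply (F := F₁) (F' := F₂) (L := L₁) (L' := L₂) g, ← IsScalarTower.algebraMap_apply]

/-- The conclusion of the reduction. -/
def Concl (m n : ℕ) (F L : Type u) [Field F] [NumberField F] [Field L] [NumberField L] [Algebra F L]
    [IsGalois F L] {k : Type w} [Field k]
    (ρ : (L ≃ₐ[F] L) →* Matrix.GeneralLinearGroup (Fin 2) k) : Prop :=
  ∃ (F' L' : Type u) (_ : Field F') (_ : NumberField F') (_ : Field L') (_ : NumberField L')
    (_ : Algebra F F') (_ : Algebra F L') (_ : Algebra F' L') (_ : Algebra L L')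
    (_ : IsScalarTower F F' L') (_ : IsScalarTower F L L'),
    NumberField.IsTotallyReal F' ∧ IsGalois F' L' ∧ Module.finrank F F' ∣ 2 ^ n ∧
      (∀ Q' : Ideal (𝓞 L'), Q'.IsMaximal → ¬ Bad m (bc (F' := F') (L' := L') ρ) Q') ∧
      (¬ Group.IsSolvable ρ.range → ¬ Group.IsSolvable (bc (F' := F') (L' := L') ρ).range) ∧
      ∀ κ, Pool.Agent.Helper93.DR.Modular F' κ (bc (F' := F') (L' := L') ρ) →
        Pool.Agent.Helper93.DR.Modular F (κ * Module.finrank F F') ρ

open Pool.Agent.Helper93.DR in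
theorem concl_of_bound {m : ℕ} (hm : m ≠ 0) {k : Type w} [Field k] [CharP k 2]
    [IsAlgClosed k] (n : ℕ) :
    ∀ (F L : Type u) [Field F] [NumberField F] [Field L] [NumberField L] [Algebra F L]
      [NumberField.IsTotallyReal F] [IsGalois F L]
      (ρ : (L ≃ₐ[F] L) →* Matrix.GeneralLinearGroup (Fin 2) k),
      (∀ Q : Ideal (𝓞 L), Q.IsMaximal → Bad m ρ Q → ¬ 2 ^ (n + 1) ∣ Nat.card (decIm ρ Q)) →
        Concl m n F L ρ := by
  induction n with
  | zero =>
    intro F L _ _ _ _ _ _ _ ρ hn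
    refine ⟨F, L, inferInstance, inferInstance, inferInstance, inferInstance, inferInstance,
      inferInstance, inferInstance, inferInstance, inferInstance, inferInstance, inferInstance,
      inferInstance, ?_, ?_, ?_, ?_⟩
    · rw [Module.finrank_self]
      exact one_dvd _
    · intro Q hQ hbad
      rw [bc_self] at hbad
      refine hn Q hQ hbad ?_
      obtain ⟨K, hK⟩ := hbad.2
      rw [← K.card_mul_index, hK, zero_add, pow_one]
      exact dvd_mul_left 2 _
    · intro h
      rw [bc_self]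
      exact h
    · intro κ h
      rw [bc_self] at h
      rw [Module.finrank_self, mul_one]
      exact h
  | succ n ih =>
    intro F L _ _ _ _ _ _ _ ρ hn
    obtain ⟨F₁, L₁, _, _, _, _, _, _, _, _, _, _, hreal, hG, hGL, hP, hcard, hstep⟩ :=
      exists_step hm ρ n hn
    have hGL₁ : IsGalois F₁ L₁ := IsGalois.tower_top_of_isGalois F F₁ L₁
    obtain ⟨F₂, L₂, _, _, _, _, _, _, _, _, _, _, hreal₂, hGL₂, hr, hbad₂, hsol₂, hmod₂⟩ :=
      ih F₁ L₁ (bc (F' := F₁) (L' := L₁) ρ) hstep
    letI : Algebra F F₂ := ((algebraMap F₁ F₂).comp (algebraMap F F₁)).toAlgebra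
    letI : Algebra F L₂ := ((algebraMap F₁ L₂).comp (algebraMap F F₁)).toAlgebra
    letI : Algebra L L₂ := ((algebraMap L₁ L₂).comp (algebraMap L L₁)).toAlgebra
    have hT1 : IsScalarTower F F₁ F₂ := IsScalarTower.of_algebraMap_eq' rfl
    have hT2 : IsScalarTower F F₁ L₂ := IsScalarTower.of_algebraMap_eq' rfl
    have hT3 : IsScalarTower L L₁ L₂ := IsScalarTower.of_algebraMap_eq' rfl
    have hT4 : IsScalarTower F F₂ L₂ := IsScalarTower.of_algebraMap_eq fun x => by
      rw [IsScalarTower.algebraMap_apply F F₁ L₂, IsScalarTower.algebraMap_apply F F₁ F₂,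
        ← IsScalarTower.algebraMap_apply F₁ F₂ L₂]
    have hT5 : IsScalarTower F L L₂ := IsScalarTower.of_algebraMap_eq fun x => by
      rw [IsScalarTower.algebraMap_apply F F₁ L₂, IsScalarTower.algebraMap_apply L L₁ L₂,
        ← IsScalarTower.algebraMap_apply F L L₁, IsScalarTower.algebraMap_apply F F₁ L₁,
        ← IsScalarTower.algebraMap_apply F₁ L₁ L₂]
    have hbc : bc (F' := F₂) (L' := L₂) (bc (F' := F₁) (L' := L₁) ρ) =
        bc (F' := F₂) (L' := L₂) ρ := bc_bc ρ
    refine ⟨F₂, L₂, inferInstance, inferInstance, inferInstance, inferInstance, inferInstance,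
      inferInstance, inferInstance, inferInstance, hT4, hT5, hreal₂, hGL₂, ?_, ?_, ?_, ?_⟩
    · have hq : Module.finrank F F₁ = Nat.card (F₁ ≃ₐ[F] F₁) :=
        (IsGalois.card_aut_eq_finrank F F₁).symm
      have hmul : Module.finrank F F₁ * Module.finrank F₁ F₂ = Module.finrank F F₂ :=
        Module.finrank_mul_finrank F F₁ F₂
      rw [← hmul, hq, pow_succ, mul_comm]
      exact mul_dvd_mul hr hcard
    · rw [← hbc]
      exact hbad₂
    · intro h
      rw [← hbc]
      refine hsol₂ fun hs => h ?_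
      have h1 := solvable_of_restrict (p := 2) _ range_normal (quot_pgroup hP)
        (ρ.comp (AlgEquiv.restrictNormalHom L : (L₁ ≃ₐ[F] L₁) →* (L ≃ₐ[F] L))) hs
      have h2 : (ρ.comp (AlgEquiv.restrictNormalHom L : (L₁ ≃ₐ[F] L₁) →* (L ≃ₐ[F] L))).range =
          ρ.range := by
        rw [MonoidHom.range_comp, MonoidHom.range_eq_top.mpr
          (AlgEquiv.restrictNormalHom_surjective (F := F) (K₁ := L) L₁), MonoidHom.range_eq_map]
      rw [h2] at h1
      exact h1
    · intro κ h
      rw [← hbc] at h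
      have h1 := hmod₂ κ h
      have h2 : Modular F (κ * Module.finrank F₁ F₂ * Module.finrank F F₁) ρ :=
        modular_of_inflation (L' := L₁) ρ (descent_modular hP _ h1)
      have hmul : Module.finrank F F₁ * Module.finrank F₁ F₂ = Module.finrank F F₂ :=
        Module.finrank_mul_finrank F F₁ F₂
      rw [mul_assoc, mul_comm (Module.finrank F₁ F₂), hmul] at h2
      exact h2

end Pool.Agent.Helper2.LR
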